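import Pool.Agent.R537.LR.Stm

/-!
# Low-rank approximation: from a system to the values of the straight-line program
-/

set_option autoImplicit false

namespace Pool.Agent.NPC.R537LR

open Pool.Agent.NPC Pool.Agent.NPC.ER

/-- The values in the block of a constraint. -/
noncomputable def bv86 (w : ℕ → ℝ) (c : ER.Con) (r : ℕ) : ℝ :=
  match c with
  | ER.Con.one _ => 0
  | ER.Con.add _ _ k => if r = 0 then w k / 2 else if r = 1 then - w k else if r = 2 then - w k / 2
      else 0
  | ER.Con.mul _ _ k => if r = 0 then w k else if r = 1 then - w k else 0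

/-- The values of the program. -/
noncomputable def vv86 (w : ℕ → ℝ) (T : List ER.Con) (V : List ℕ) (L e K : ℕ) (k : ℕ) : ℝ :=
  if k < L then w (V.getD k 0)
  else if k = L then -1
  else if k = L + 1 then -(1 / 8)
  else if k = L + 2 then 0
  else if k < e then bv86 w (T.getD ((k - (L + 3)) / 6) (ER.Con.one 0)) ((k - (L + 3)) % 6)
  else if k ≤ e + K then (1 / 2 : ℝ) ^ 2 ^ (k - e)
  else if k = e + K + 1 then 0
  else (1 / 2 : ℝ) ^ 2 ^ K / 2

theorem bv86_le {w : ℕ → ℝ} (hw : ∀ i, |w i| ≤ 1 / 8) (c : ER.Con) (r : ℕ) :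
    |bv86 w c r| ≤ 1 := by
  cases c with
  | one i => simp [bv86]
  | add i j k =>
    have h := abs_le.1 (hw k)
    simp only [bv86]
    split_ifs <;> rw [abs_le] <;> constructor <;> linarith
  | mul i j k =>
    have h := abs_le.1 (hw k)
    simp only [bv86]
    split_ifs <;> rw [abs_le] <;> constructor <;> linarith

theorem bv86_high (w : ℕ → ℝ) (c : ER.Con) (r : ℕ) (hr : 3 ≤ r) : bv86 w c r = 0 := by
  cases c with
  | one i => simp [bv86]
  | add i j k =>
    simp only [bv86]
    rw [if_neg (by omega), if_neg (by omega), if_neg (by omega)]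
  | mul i j k =>
    simp only [bv86]
    rw [if_neg (by omega), if_neg (by omega)]

theorem vv86_le {w : ℕ → ℝ} (hw : ∀ i, |w i| ≤ 1 / 8) (T : List ER.Con) (V : List ℕ)
    (L e K k : ℕ) : |vv86 w T V L e K k| ≤ 1 := by
  have h0 : ∀ n : ℕ, 0 < (1 / 2 : ℝ) ^ n ∧ (1 / 2 : ℝ) ^ n ≤ 1 := fun n =>
    ⟨by positivity, pow_le_one₀ (by norm_num) (by norm_num)⟩
  unfold vv86
  split_ifs
  · exact (hw _).trans (by norm_num)
  · norm_num
  · rw [abs_le]; norm_num
  · norm_num
  · exact bv86_le hw _ _
  · rw [abs_of_pos (h0 _).1]; exact (h0 _).2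
  · norm_num
  · have := h0 (2 ^ K)
    rw [abs_of_pos (by linarith [this.1])]
    linarith [this.1, this.2]

section

variable {w : ℕ → ℝ} {T : List ER.Con} {V : List ℕ} {L e K : ℕ}

theorem vv86_blk (he : e = L + 3 + 6 * T.length) {c : ER.Con} {t r : ℕ}
    (hc : T[t]? = some c) (hr : r < 6) :
    vv86 w T V L e K (L + 3 + 6 * t + r) = bv86 w c r := by
  have ht : t < T.length := by
    rw [List.getElem?_eq_some_iff] at hc
    exact hc.1
  unfold vv86
  rw [if_neg (by omega), if_neg (by omega), if_neg (by omega), if_neg (by omega),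
    if_pos (by omega)]
  have h1 : (L + 3 + 6 * t + r - (L + 3)) = 6 * t + r := by omega
  rw [h1]
  have h2 : (6 * t + r) / 6 = t := by omega
  have h3 : (6 * t + r) % 6 = r := by omega
  rw [h2, h3]
  congr 1
  rw [List.getD_eq_getElem?_getD, hc]
  rfl

theorem vv86_prev (he : e = L + 3 + 6 * T.length) {t : ℕ} (ht : t ≤ T.length) :
    vv86 w T V L e K (L + 3 + 6 * t - 1) = 0 := by
  rcases Nat.eq_zero_or_pos t with h0 | h0
  · subst h0
    unfold vv86
    rw [if_neg (by omega), if_neg (by omega), if_neg (by omega), if_pos (by omega)]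
  · obtain ⟨s, rfl⟩ : ∃ s, t = s + 1 := ⟨t - 1, by omega⟩
    have h1 : L + 3 + 6 * (s + 1) - 1 = L + 3 + 6 * s + 5 := by omega
    rw [h1, vv86_blk he (List.getElem?_eq_getElem (show s < T.length by omega)) (by norm_num)]
    exact bv86_high _ _ _ (by norm_num)

theorem vv86_inp (hL : L = V.length) {i : ℕ} (hi : i ∈ V) :
    vv86 w T V L e K (V.idxOf i) = w i := by
  have h1 : V.idxOf i < V.length := List.idxOf_lt_length_iff.2 hi
  unfold vv86
  rw [if_pos (by omega)]
  congr 1
  rw [List.getD_eq_getElem _ _ h1, List.getElem_idxOf]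

theorem vv86_L : vv86 w T V L e K L = -1 := by
  unfold vv86
  rw [if_neg (by omega), if_pos rfl]

theorem vv86_L1 : vv86 w T V L e K (L + 1) = -(1 / 8) := by
  unfold vv86
  rw [if_neg (by omega), if_neg (by omega), if_pos rfl]

theorem vv86_L2 : vv86 w T V L e K (L + 2) = 0 := by
  unfold vv86
  rw [if_neg (by omega), if_neg (by omega), if_neg (by omega), if_pos rfl]

theorem vv86_pow (he : L + 3 ≤ e) {j : ℕ} (hj : j ≤ K) :
    vv86 w T V L e K (e + j) = (1 / 2 : ℝ) ^ 2 ^ j := by
  unfold vv86
  rw [if_neg (by omega), if_neg (by omega), if_neg (by omega), if_neg (by omega),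
    if_neg (by omega), if_pos (by omega)]
  congr 2
  omega

theorem vv86_e1 (he : L + 3 ≤ e) : vv86 w T V L e K (e + K + 1) = 0 := by
  unfold vv86
  rw [if_neg (by omega), if_neg (by omega), if_neg (by omega), if_neg (by omega),
    if_neg (by omega), if_neg (by omega), if_pos rfl]

theorem vv86_e2 (he : L + 3 ≤ e) : vv86 w T V L e K (e + K + 2) = (1 / 2 : ℝ) ^ 2 ^ K / 2 := by
  unfold vv86
  rw [if_neg (by omega), if_neg (by omega), if_neg (by omega), if_neg (by omega),
    if_neg (by omega), if_neg (by omega), if_neg (by omega)]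

end

theorem gh0 {v : ℕ → ℝ} {i j k : ℕ} {z : ℤ} : GHolds v (0, i, j, k, z) := by
  simp [GHolds]

theorem gh1 {v : ℕ → ℝ} {i j k : ℕ} {z : ℤ} (h : v k = (z : ℝ) / 8) :
    GHolds v (1, i, j, k, z) := by
  simp [GHolds, h]

theorem gh2 {v : ℕ → ℝ} {i j k : ℕ} {z : ℤ} (h : v i + v j = 2 * v k) :
    GHolds v (2, i, j, k, z) := by
  simp [GHolds, h]

theorem gh3 {v : ℕ → ℝ} {i j k : ℕ} {z : ℤ} (h : v i * v j = v k) :
    GHolds v (3, i, j, k, z) := by
  simp [GHolds, h]

theorem t_SRC1 : S_SRC1 := by
  intro S hS
  obtain ⟨w, hw, hc⟩ := bsys_of_sat hS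
  set T := TS S with hT
  set V := svars T with hV
  set L := Ls S with hL
  set e := eS S with he
  set K := KS S with hK
  have hLV : L = V.length := rfl
  have hee : e = L + 3 + 6 * T.length := rfl
  have he3 : L + 3 ≤ e := by omega
  have hn : n1 S = e + K + 3 := rfl
  refine ⟨vv86 w T V L e K, fun i _ => vv86_le hw T V L e K i, ?_, ?_⟩
  · intro g hg
    unfold prog at hg
    have hg' := (List.mem_append.1 hg).imp_right fun hg => (List.mem_append.1 hg).imp_right
      fun hg => (List.mem_append.1 hg).imp_right fun hg => (List.mem_cons.1 hg).imp_right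
      fun hg => List.mem_append.1 hg
    clear hg
    rcases hg' with hg | hg | hg | hg | hg | hg
    · obtain ⟨k, -, rfl⟩ := List.mem_map.1 hg
      exact gh0
    · simp only [List.mem_cons, List.not_mem_nil, or_false] at hg
      rcases hg with rfl | rfl | rfl
      · exact gh1 (by rw [← hL, vv86_L]; norm_num)
      · exact gh1 (by rw [← hL, vv86_L1]; norm_num)
      · exact gh1 (by rw [← hL, vv86_L2]; norm_num)
    · obtain ⟨⟨c, t⟩, hp, hg⟩ := List.mem_flatMap.1 hg
      have hct : T[t]? = some c := List.mem_zipIdx_iff_getElem?.1 hp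
      have hcT : c ∈ T := List.mem_of_getElem? hct
      have htl : t < T.length := by
        rw [List.getElem?_eq_some_iff] at hct
        exact hct.1
      have hin : ∀ i ∈ c.vars, vv86 w T V L e K (V.idxOf i) = w i := fun i hi =>
        vv86_inp hLV (mem_svars hcT hi)
      have hb : ∀ r < 6, vv86 w T V L e K (L + 3 + 6 * t + r) = bv86 w c r := fun r hr =>
        vv86_blk hee hct hr
      have hpr : vv86 w T V L e K (L + 3 + 6 * t - 1) = 0 := vv86_prev hee (by omega)
      have hb0 : vv86 w T V L e K (L + 3 + 6 * t) = bv86 w c 0 := hb 0 (by norm_num)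
      have hb1 := hb 1 (by norm_num)
      have hb2 := hb 2 (by norm_num)
      have hb3 := hb 3 (by norm_num)
      have hb4 := hb 4 (by norm_num)
      have hb5 := hb 5 (by norm_num)
      rw [bv86_high w c 3 (by norm_num)] at hb3
      rw [bv86_high w c 4 (by norm_num)] at hb4
      rw [bv86_high w c 5 (by norm_num)] at hb5
      have hh := hc c hcT
      simp only at hg
      unfold pblk at hg
      rw [List.mem_append] at hg
      rcases hg with hg | hg
      · cases c with
        | one i =>
          have h1 := hin i (by simp [ER.Con.vars])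
          simp only [ER.Con.HoldsC] at hh
          simp only [bv86] at hb0 hb1 hb2
          simp only [List.mem_cons, List.not_mem_nil, or_false] at hg
          rcases hg with rfl | rfl | rfl | rfl
          · exact gh1 (by rw [hb0]; norm_num)
          · exact gh1 (by rw [hb1]; norm_num)
          · exact gh1 (by rw [hb2]; norm_num)
          · exact gh2 (by rw [h1, ← hL, vv86_L1, hb3, hh]; norm_num)
        | add i j k =>
          have h1 := hin i (by simp [ER.Con.vars])
          have h2 := hin j (by simp [ER.Con.vars])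
          have h3 := hin k (by simp [ER.Con.vars])
          simp only [ER.Con.HoldsC] at hh
          simp [bv86] at hb0 hb1 hb2
          simp only [List.mem_cons, List.not_mem_nil, or_false] at hg
          rcases hg with rfl | rfl | rfl | rfl
          · exact gh2 (by rw [h1, h2, hb0, hh]; ring)
          · exact gh3 (by rw [h3, ← hL, vv86_L, hb1]; ring)
          · exact gh2 (by rw [hb1, ← hL, vv86_L2, hb2]; ring)
          · exact gh2 (by rw [hb0, hb2, hb3]; ring)
        | mul i j k =>
          have h1 := hin i (by simp [ER.Con.vars])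
          have h2 := hin j (by simp [ER.Con.vars])
          have h3 := hin k (by simp [ER.Con.vars])
          simp only [ER.Con.HoldsC] at hh
          simp [bv86] at hb0 hb1 hb2
          simp only [List.mem_cons, List.not_mem_nil, or_false] at hg
          rcases hg with rfl | rfl | rfl | rfl
          · exact gh3 (by rw [h1, h2, hb0, hh])
          · exact gh3 (by rw [h3, ← hL, vv86_L, hb1]; ring)
          · exact gh1 (by rw [hb2]; norm_num)
          · exact gh2 (by rw [hb0, hb1, hb3]; ring)
      · simp only [List.mem_cons, List.not_mem_nil, or_false] at hg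
        rcases hg with rfl | rfl
        · exact gh3 (by rw [hb3, hb4]; ring)
        · exact gh2 (by rw [hpr, hb4, hb5]; ring)
    · subst hg
      refine gh1 ?_
      have := vv86_pow (w := w) (T := T) (V := V) he3 (Nat.zero_le K)
      rw [Nat.add_zero] at this
      rw [← he, this]
      norm_num
    · obtain ⟨j, hj, rfl⟩ := List.mem_map.1 hg
      have hj' : j < K := List.mem_range.1 hj
      refine gh3 ?_
      rw [← he, vv86_pow he3 hj'.le, Nat.add_assoc, vv86_pow he3 (show j + 1 ≤ K by omega)]
      rw [← pow_add]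
      congr 1
      rw [pow_succ]
      ring
    · simp only [List.mem_cons, List.not_mem_nil, or_false] at hg
      rcases hg with rfl | rfl
      · refine gh3 ?_
        rw [← he, ← hL, ← hK, vv86_e1 he3]
        have : vv86 w T V L e K (e - 1) = 0 := by
          have := vv86_prev (w := w) (T := T) (V := V) (K := K) hee (le_refl T.length)
          rw [← hee] at this
          exact this
        rw [this, zero_mul]
      · refine gh2 ?_
        rw [← he, ← hK, vv86_e1 he3, vv86_e2 he3, vv86_pow he3 le_rfl]
        ring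
  · rw [hn]
    have : e + K + 3 - 1 = e + K + 2 := by omega
    rw [this, vv86_e2 he3]
    positivity

end Pool.Agent.NPC.R537LR
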