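import Mathlib

/-! Homomorphism densities of finite graphs in finite (looped) symmetric relations, and
systems of triples; multiplicativity under products. -/

open Finset

namespace Pool.Agent.R86.TA

/-- All finite graphs. -/
abbrev Gr := Σ k : ℕ, SimpleGraph (Fin k)

/-- The number of maps `W → V` sending edges of `g` to pairs in the relation `R`. -/
noncomputable def homs {W V : Type} (g : SimpleGraph W) (R : V → V → Prop) : ℕ :=
  Nat.card {f : W → V // ∀ a b, g.Adj a b → R (f a) (f b)}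

/-- Homomorphism density. -/
noncomputable def dens {W V : Type} [Fintype W] [Fintype V] (g : SimpleGraph W)
    (R : V → V → Prop) : ℝ :=
  (homs g R : ℝ) / (Fintype.card V : ℝ) ^ (Fintype.card W)

/-- The product relation. -/
def prodRel {V V' : Type} (R : V → V → Prop) (R' : V' → V' → Prop) :
    V × V' → V × V' → Prop := fun x y => R x.1 y.1 ∧ R' x.2 y.2

theorem homs_prod {W V V' : Type} (g : SimpleGraph W) (R : V → V → Prop) (R' : V' → V' → Prop) :
    homs g (prodRel R R') = homs g R * homs g R' := by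
  unfold homs
  rw [← Nat.card_prod]
  refine Nat.card_congr
    { toFun := fun f => (⟨fun a => (f.1 a).1, fun a b h => (f.2 a b h).1⟩,
        ⟨fun a => (f.1 a).2, fun a b h => (f.2 a b h).2⟩)
      invFun := fun p => ⟨fun a => (p.1.1 a, p.2.1 a), fun a b h => ⟨p.1.2 a b h, p.2.2 a b h⟩⟩
      left_inv := fun f => rfl
      right_inv := fun p => rfl }

theorem dens_prod {W V V' : Type} [Fintype W] [Fintype V] [Fintype V'] (g : SimpleGraph W)
    (R : V → V → Prop) (R' : V' → V' → Prop) :
    dens g (prodRel R R') = dens g R * dens g R' := by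
  unfold dens
  rw [homs_prod, Fintype.card_prod]
  push_cast
  rw [mul_pow, mul_div_mul_comm]

theorem homs_le {W V : Type} [Fintype W] [Fintype V] (g : SimpleGraph W) (R : V → V → Prop) :
    homs g R ≤ Fintype.card V ^ Fintype.card W := by
  classical
  unfold homs
  have h := Nat.card_le_card_of_injective
    (Subtype.val : {f : W → V // ∀ a b, g.Adj a b → R (f a) (f b)} → (W → V))
    Subtype.val_injective
  rwa [Nat.card_eq_fintype_card (α := W → V), Fintype.card_fun] at h

theorem dens_nonneg {W V : Type} [Fintype W] [Fintype V] (g : SimpleGraph W)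
    (R : V → V → Prop) : 0 ≤ dens g R := by
  unfold dens; positivity

theorem dens_le_one {W V : Type} [Fintype W] [Fintype V] (g : SimpleGraph W)
    (R : V → V → Prop) : dens g R ≤ 1 := by
  unfold dens
  apply div_le_one_of_le₀
  · exact_mod_cast homs_le g R
  · positivity

theorem homs_congr_equiv {W V V' : Type} (g : SimpleGraph W) (R : V → V → Prop)
    (R' : V' → V' → Prop) (e : V ≃ V') (h : ∀ x y, R x y ↔ R' (e x) (e y)) :
    homs g R = homs g R' := by
  unfold homs
  refine Nat.card_congr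
    { toFun := fun f => ⟨fun a => e (f.1 a), fun a b hab => (h _ _).1 (f.2 a b hab)⟩
      invFun := fun f => ⟨fun a => e.symm (f.1 a), fun a b hab => by
        rw [h]; simpa using f.2 a b hab⟩
      left_inv := fun f => by ext a; simp
      right_inv := fun f => by ext a; simp }

theorem homs_iso {W W' V : Type} (g : SimpleGraph W) (g' : SimpleGraph W') (e : g ≃g g')
    (R : V → V → Prop) : homs g R = homs g' R := by
  unfold homs
  refine Nat.card_congr
    { toFun := fun f => ⟨fun a => f.1 (e.symm a), fun a b hab => f.2 _ _ (by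
        rwa [SimpleGraph.Iso.map_adj_iff])⟩
      invFun := fun f => ⟨fun a => f.1 (e a), fun a b hab => f.2 _ _ (by
        rwa [SimpleGraph.Iso.map_adj_iff])⟩
      left_inv := fun f => by ext a; simp
      right_inv := fun f => by ext a; simp }

theorem dens_iso {W W' V : Type} [Fintype W] [Fintype W'] [Fintype V]
    (g : SimpleGraph W) (g' : SimpleGraph W') (e : g ≃g g')
    (R : V → V → Prop) : dens g R = dens g' R := by
  unfold dens
  rw [homs_iso g g' e R, Fintype.card_congr e.toEquiv]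

/-- Density only depends on the non-isolated part. -/
theorem dens_support {W V : Type} [Fintype W] [Fintype V] [Nonempty V]
    (g : SimpleGraph W) [Fintype g.support] (R : V → V → Prop) :
    dens g R = dens (g.induce g.support) R := by
  classical
  have key : homs g R = homs (g.induce g.support) R *
      (Fintype.card V) ^ (Fintype.card W - Fintype.card g.support) := by
    have h1 : Nat.card ({x : W // x ∉ g.support} → V) =
        (Fintype.card V) ^ (Fintype.card W - Fintype.card g.support) := by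
      rw [Nat.card_eq_fintype_card, Fintype.card_fun]
      congr 1
      rw [Fintype.card_subtype_compl]
    rw [← h1]
    unfold homs
    rw [← Nat.card_prod]
    refine Nat.card_congr
      { toFun := fun f => (⟨fun a => f.1 a.1, fun a b hab => f.2 _ _ hab⟩, fun a => f.1 a.1)
        invFun := fun p => ⟨fun a => if h : a ∈ g.support then p.1.1 ⟨a, h⟩ else p.2 ⟨a, h⟩, ?_⟩
        left_inv := ?_
        right_inv := ?_ }
    · intro a b hab
      have ha : a ∈ g.support := ⟨b, hab⟩
      have hb : b ∈ g.support := ⟨a, hab.symm⟩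
      beta_reduce
      rw [dif_pos ha, dif_pos hb]
      exact p.1.2 ⟨a, ha⟩ ⟨b, hb⟩ hab
    · intro f
      ext a
      simp only
      split_ifs <;> rfl
    · intro p
      ext a
      · simp [a.2]
      · simp [a.2]
  unfold dens
  rw [key]
  have hle : Fintype.card g.support ≤ Fintype.card W := Fintype.card_subtype_le _
  have hV : (Fintype.card V : ℝ) ≠ 0 := by
    have : 0 < Fintype.card V := Fintype.card_pos
    positivity
  push_cast
  rw [div_eq_div_iff (by positivity) (by positivity), mul_assoc, ← pow_add]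
  congr 2
  omega

/-- The type of a graph: an isomorphic copy of its non-isolated part on `Fin s`. -/
theorem exists_type (F : Gr) : ∃ g : SimpleGraph (Fin (Nat.card F.2.support)),
    ∀ (V : Type) [Fintype V] [Nonempty V] (R : V → V → Prop), dens F.2 R = dens g R := by
  classical
  have e : F.2.support ≃ Fin (Nat.card F.2.support) := Finite.equivFin _
  refine ⟨(F.2.induce F.2.support).map e.toEmbedding, ?_⟩
  intro V _ _ R
  rw [dens_support]
  apply dens_iso
  exact SimpleGraph.Iso.map e _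

/-- A system of triples of `R` any two of which agree in at most one coordinate. -/
def Tri {V : Type} (R : V → V → Prop) (T : Finset (V × V × V)) : Prop :=
  (∀ t ∈ T, R t.1 t.2.1 ∧ R t.1 t.2.2 ∧ R t.2.1 t.2.2) ∧
  (∀ s ∈ T, ∀ t ∈ T, ((s.1 = t.1 ∧ s.2.1 = t.2.1) ∨ (s.1 = t.1 ∧ s.2.2 = t.2.2) ∨
    (s.2.1 = t.2.1 ∧ s.2.2 = t.2.2)) → s = t)

theorem Tri.prod {V V' : Type} {R : V → V → Prop} {R' : V' → V' → Prop}
    {T : Finset (V × V × V)} {T' : Finset (V' × V' × V')} (h : Tri R T) (h' : Tri R' T') :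
    ∃ U : Finset ((V × V') × (V × V') × (V × V')), Tri (prodRel R R') U ∧
      U.card = T.card * T'.card := by
  classical
  let φ : (V × V × V) × (V' × V' × V') → (V × V') × (V × V') × (V × V') :=
    fun p => ((p.1.1, p.2.1), (p.1.2.1, p.2.2.1), (p.1.2.2, p.2.2.2))
  have hφ : Function.Injective φ := by
    rintro ⟨⟨a, b, c⟩, ⟨a', b', c'⟩⟩ ⟨⟨d, e, f⟩, ⟨d', e', f'⟩⟩ hh
    simp only [φ, Prod.mk.injEq] at hh
    obtain ⟨⟨h1, h2⟩, ⟨h3, h4⟩, ⟨h5, h6⟩⟩ := hh
    subst h1 h2 h3 h4 h5 h6
    rfl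
  refine ⟨(T ×ˢ T').image φ, ⟨?_, ?_⟩, ?_⟩
  · intro t ht
    rw [Finset.mem_image] at ht
    obtain ⟨p, hp, rfl⟩ := ht
    rw [Finset.mem_product] at hp
    have h1 := h.1 _ hp.1
    have h2 := h'.1 _ hp.2
    exact ⟨⟨h1.1, h2.1⟩, ⟨h1.2.1, h2.2.1⟩, ⟨h1.2.2, h2.2.2⟩⟩
  · intro s hs t ht hst
    rw [Finset.mem_image] at hs ht
    obtain ⟨p, hp, rfl⟩ := hs
    obtain ⟨q, hq, rfl⟩ := ht
    rw [Finset.mem_product] at hp hq
    simp only [φ, Prod.mk.injEq] at hst
    have e1 : p.1 = q.1 := h.2 _ hp.1 _ hq.1 (by tauto)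
    have e2 : p.2 = q.2 := h'.2 _ hp.2 _ hq.2 (by tauto)
    rw [show p = q from Prod.ext e1 e2]
  · rw [Finset.card_image_of_injective _ hφ, Finset.card_product]

/-- Achievability of a triple density `a` together with bounds `b` on all densities. -/
def Ach (m : ℕ) (a : ℝ) (b : Gr → ℝ) : Prop :=
  ∃ (V : Type) (_ : Fintype V) (_ : Nonempty V) (R : V → V → Prop),
    m ≤ Fintype.card V ∧ (∀ x y, R x y → R y x) ∧
    (∃ T, Tri R T ∧ a * (Fintype.card V : ℝ) ^ 2 ≤ (T.card : ℝ)) ∧
    ∀ F : Gr, dens F.2 R ≤ b F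

theorem Ach.mul {m m' : ℕ} {a a' : ℝ} {b b' : Gr → ℝ} (ha' : 0 ≤ a')
    (h : Ach m a b) (h' : Ach m' a' b') : Ach m (a * a') (fun F => b F * b' F) := by
  classical
  obtain ⟨V, i1, i2, R, hm, hR, ⟨T, hT, hTc⟩, hb⟩ := h
  obtain ⟨V', i1', i2', R', hm', hR', ⟨T', hT', hTc'⟩, hb'⟩ := h'
  obtain ⟨U, hU, hUc⟩ := hT.prod hT'
  refine ⟨V × V', inferInstance, inferInstance, prodRel R R', ?_, ?_, ⟨U, hU, ?_⟩, ?_⟩
  · rw [Fintype.card_prod]
    have : 0 < Fintype.card V' := Fintype.card_pos
    exact hm.trans (Nat.le_mul_of_pos_right _ this)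
  · intro x y hxy
    exact ⟨hR _ _ hxy.1, hR' _ _ hxy.2⟩
  · rw [hUc, Fintype.card_prod]
    push_cast
    calc a * a' * ((Fintype.card V : ℝ) * (Fintype.card V' : ℝ)) ^ 2
        = (a * (Fintype.card V : ℝ) ^ 2) * (a' * (Fintype.card V' : ℝ) ^ 2) := by ring
      _ ≤ (T.card : ℝ) * (T'.card : ℝ) := by
        apply mul_le_mul hTc hTc' (by positivity) (by positivity)
  · intro F
    rw [dens_prod]
    exact mul_le_mul (hb F) (hb' F) (dens_nonneg _ _) ((dens_nonneg _ _).trans (hb F))

theorem Ach.mono {m m' : ℕ} {a a' : ℝ} {b b' : Gr → ℝ} (h : Ach m a b) (hm : m' ≤ m)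
    (ha : a' ≤ a) (hb : ∀ F, b F ≤ b' F) : Ach m' a' b' := by
  obtain ⟨V, i1, i2, R, hm1, hR, ⟨T, hT, hTc⟩, hb1⟩ := h
  refine ⟨V, i1, i2, R, hm.trans hm1, hR, ⟨T, hT, ?_⟩, fun F => (hb1 F).trans (hb F)⟩
  refine le_trans ?_ hTc
  exact mul_le_mul_of_nonneg_right ha (by positivity)

/-- Blow-ups. -/
theorem Ach.full (m : ℕ) : Ach m 1 (fun _ => 1) := by
  classical
  refine ⟨ZMod (m + 1), inferInstance, inferInstance, fun _ _ => True, ?_, ?_, ⟨?_, ?_⟩, ?_⟩
  · rw [ZMod.card]; omega
  · intro _ _ _; trivial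
  · exact (Finset.univ : Finset (ZMod (m + 1) × ZMod (m + 1))).image
      (fun p => (p.1, p.2, p.1 + p.2))
  · refine ⟨⟨fun _ _ => ⟨trivial, trivial, trivial⟩, ?_⟩, ?_⟩
    · intro s hs t ht hst
      rw [Finset.mem_image] at hs ht
      obtain ⟨⟨a, b⟩, -, rfl⟩ := hs
      obtain ⟨⟨c, d⟩, -, rfl⟩ := ht
      simp only at hst
      rcases hst with ⟨h1, h2⟩ | ⟨h1, h2⟩ | ⟨h1, h2⟩
      · rw [h1, h2]
      · subst h1
        have : b = d := by simpa using h2
        rw [this]
      · subst h1
        have : a = c := by simpa using h2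
        rw [this]
    · rw [Finset.card_image_of_injective]
      · rw [Finset.card_univ, Fintype.card_prod]
        push_cast
        rw [one_mul, sq]
      · rintro ⟨a, b⟩ ⟨c, d⟩ h
        simp only [Prod.mk.injEq] at h
        rw [h.1, h.2.1]
  · intro F
    exact dens_le_one _ _

theorem Ach.pow {a : ℝ} {b : Gr → ℝ} (ha : 0 ≤ a) (h : Ach 0 a b) (k : ℕ) :
    Ach 0 (a ^ k) (fun F => b F ^ k) := by
  induction k with
  | zero => simpa using Ach.full 0
  | succ k ih =>
    have := ih.mul ha h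
    simpa [pow_succ] using this

/-- Padding by isolated vertices. -/
theorem Ach.pad (M : ℕ) (hM : 0 < M) :
    Ach 0 (1 / (M : ℝ) ^ 2) (fun F => 1 / (M : ℝ) ^ (Nat.card F.2.support)) := by
  classical
  have : NeZero M := ⟨hM.ne'⟩
  have hM' : (0 : ℝ) < M := by exact_mod_cast hM
  refine ⟨Fin M, inferInstance, inferInstance, fun x y => x = 0 ∧ y = 0, Nat.zero_le _,
    fun x y h => ⟨h.2, h.1⟩, ⟨{(0, 0, 0)}, ⟨?_, ?_⟩, ?_⟩, ?_⟩
  · intro t ht
    rw [Finset.mem_singleton] at ht
    subst ht
    simp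
  · intro s hs t ht _
    rw [Finset.mem_singleton] at hs ht
    rw [hs, ht]
  · rw [Fintype.card_fin, Finset.card_singleton]
    push_cast
    rw [one_div_mul_cancel (by positivity)]
  · intro F
    rw [dens_support]
    unfold dens
    beta_reduce
    rw [Fintype.card_fin, Nat.card_eq_fintype_card]
    apply div_le_div_of_nonneg_right _ (by positivity)
    have : homs (F.2.induce F.2.support) (fun x y : Fin M => x = 0 ∧ y = 0) ≤ 1 := by
      unfold homs
      rw [Finite.card_le_one_iff_subsingleton]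
      refine ⟨fun f g => ?_⟩
      ext ⟨a, ha⟩
      obtain ⟨b, hab⟩ := ha
      have hf := (f.2 ⟨a, ⟨b, hab⟩⟩ ⟨b, ⟨a, hab.symm⟩⟩ hab).1
      have hg := (g.2 ⟨a, ⟨b, hab⟩⟩ ⟨b, ⟨a, hab.symm⟩⟩ hab).1
      rw [hf, hg]
    exact_mod_cast this

/-- Finite products. -/
theorem Ach.prod {ι : Type} (S : Finset ι) (a : ℝ) (ha : 0 ≤ a) (b : ι → Gr → ℝ)
    (h : ∀ i ∈ S, Ach 0 a (b i)) : Ach 0 (a ^ S.card) (fun F => ∏ i ∈ S, b i F) := by
  classical
  induction S using Finset.induction_on with
  | empty => simpa using Ach.full 0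
  | insert i S hi ih =>
    have h1 := ih (fun j hj => h j (Finset.mem_insert_of_mem hj))
    have h2 := (h i (Finset.mem_insert_self _ _)).mul (pow_nonneg ha _) h1
    rw [Finset.card_insert_of_notMem hi, pow_succ']
    refine h2.mono le_rfl le_rfl (fun F => ?_)
    rw [Finset.prod_insert hi]

end Pool.Agent.R86.TA
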