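import Mathlib
import Pool.Agent.R86.TA1

/-! Triangle-abundance of graphs and of families: definitions and basic lemmas. -/

open Finset

namespace Pool.Agent.R86.TA

/-- `G` is `ε`-far from triangle-free: it cannot be made triangle-free by deleting fewer than
`ε n²` edges. -/
def EpsFar {n : ℕ} (ε : ℝ) (G : SimpleGraph (Fin n)) : Prop :=
  ∀ s : Finset (Sym2 (Fin n)), (s : Set (Sym2 (Fin n))) ⊆ G.edgeSet →
    (G.deleteEdges (s : Set (Sym2 (Fin n)))).CliqueFree 3 → ε * (n : ℝ) ^ 2 ≤ (s.card : ℝ)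

/-- `G` contains at least `ε n²` pairwise edge-disjoint triangles. -/
def ManyTriangles {n : ℕ} (ε : ℝ) (G : SimpleGraph (Fin n)) : Prop :=
  ∃ T : Finset (Finset (Fin n)), (∀ t ∈ T, G.IsNClique 3 t) ∧
    (∀ s ∈ T, ∀ t ∈ T, s ≠ t → (s ∩ t).card ≤ 1) ∧ ε * (n : ℝ) ^ 2 ≤ (T.card : ℝ)

/-- The graph `F` is triangle-abundant. -/
def GraphAbundant (F : Gr) : Prop :=
  ∃ C : ℝ, 0 < C ∧ ∀ ε : ℝ, 0 < ε → ε < 1 → ∃ n₀ : ℕ, ∀ n ≥ n₀, ∀ G : SimpleGraph (Fin n),
    EpsFar ε G → ε ^ C * (n : ℝ) ^ F.1 ≤ (G.copyCount F.2 : ℝ)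

/-- The family `𝓕` of graphs is triangle-abundant. -/
def FamilyAbundant (𝓕 : Set Gr) : Prop :=
  ∃ C : ℝ, 0 < C ∧ ∀ ε : ℝ, 0 < ε → ε < 1 → ∃ n₀ : ℕ, ∀ n ≥ n₀, ∀ G : SimpleGraph (Fin n),
    ManyTriangles ε G → ∃ F ∈ 𝓕, ε ^ C * (n : ℝ) ^ F.1 ≤ (G.copyCount F.2 : ℝ)

theorem ManyTriangles.epsFar {n : ℕ} {ε : ℝ} {G : SimpleGraph (Fin n)}
    (h : ManyTriangles ε G) : EpsFar ε G := by
  classical
  obtain ⟨T, hT1, hT2, hT3⟩ := h
  intro s hs hfree
  refine hT3.trans ?_
  have key : ∀ t ∈ T, ∃ e ∈ s, ∀ v ∈ e, v ∈ t := by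
    intro t ht
    by_contra hcon
    push Not at hcon
    apply hfree t
    refine ⟨?_, (hT1 t ht).card_eq⟩
    intro a ha b hb hab
    rw [SimpleGraph.deleteEdges_adj]
    refine ⟨(hT1 t ht).isClique ha hb hab, ?_⟩
    intro hmem
    obtain ⟨v, hv, hvt⟩ := hcon _ (Finset.mem_coe.1 hmem)
    rw [Sym2.mem_iff] at hv
    rcases hv with rfl | rfl
    · exact hvt ha
    · exact hvt hb
  rcases T.eq_empty_or_nonempty with hTe | ⟨t₀, ht₀⟩
  · rw [hTe]; simp
  have : Nonempty (Sym2 (Fin n)) := ⟨(key t₀ ht₀).choose⟩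
  choose! e he1 he2 using key
  have hinj : Set.InjOn e (T : Set (Finset (Fin n))) := by
    intro t ht t' ht' hee
    by_contra hne
    have h1 := hT2 t ht t' ht' hne
    have h2 := hs (Finset.mem_coe.2 (he1 t ht))
    have h3 := he2 t ht
    have h4 := he2 t' ht'
    rw [← hee] at h4
    revert h2 h3 h4
    generalize e t = e₀
    induction e₀ using Sym2.ind with
    | _ a b =>
      intro h2 h3 h4
      rw [SimpleGraph.mem_edgeSet] at h2
      have hab : a ≠ b := h2.ne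
      have ha : a ∈ t ∩ t' := Finset.mem_inter.2 ⟨h3 a (by simp), h4 a (by simp)⟩
      have hb : b ∈ t ∩ t' := Finset.mem_inter.2 ⟨h3 b (by simp), h4 b (by simp)⟩
      exact hab (Finset.card_le_one.1 h1 a ha b hb)
  exact_mod_cast Finset.card_le_card_of_injOn e (fun t ht => he1 t ht) hinj

theorem EpsFar.exists_triangles {n : ℕ} {ε : ℝ} {G : SimpleGraph (Fin n)}
    (h : EpsFar ε G) : ∃ T : Finset (Finset (Fin n)), (∀ t ∈ T, G.IsNClique 3 t) ∧
    (∀ s ∈ T, ∀ t ∈ T, s ≠ t → (s ∩ t).card ≤ 1) ∧ ε * (n : ℝ) ^ 2 ≤ 3 * (T.card : ℝ) := by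
  classical
  let P : Finset (Finset (Fin n)) → Prop := fun T => (∀ t ∈ T, G.IsNClique 3 t) ∧
    (∀ s ∈ T, ∀ t ∈ T, s ≠ t → (s ∩ t).card ≤ 1)
  obtain ⟨T, hT, hmax⟩ := Finset.exists_max_image
    (Finset.univ.filter P) Finset.card ⟨∅, by
      rw [Finset.mem_filter]
      exact ⟨Finset.mem_univ _, by simp [P]⟩⟩
  rw [Finset.mem_filter] at hT
  obtain ⟨-, hT1, hT2⟩ := hT
  refine ⟨T, hT1, hT2, ?_⟩
  set s : Finset (Sym2 (Fin n)) := T.biUnion (fun t => t.offDiag.image (Sym2.mk.uncurry)) with hs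
  have hcard : s.card ≤ 3 * T.card := by
    calc s.card ≤ ∑ t ∈ T, (t.offDiag.image (Sym2.mk.uncurry)).card := Finset.card_biUnion_le
      _ = ∑ t ∈ T, 3 := by
        apply Finset.sum_congr rfl
        intro t ht
        rw [Sym2.card_image_offDiag, (hT1 t ht).card_eq]
        rfl
      _ = 3 * T.card := by rw [Finset.sum_const, smul_eq_mul, mul_comm]
  have hsub : (s : Set (Sym2 (Fin n))) ⊆ G.edgeSet := by
    intro e he
    rw [Finset.mem_coe, hs, Finset.mem_biUnion] at he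
    obtain ⟨t, ht, he⟩ := he
    rw [Finset.mem_image] at he
    obtain ⟨⟨a, b⟩, hab, rfl⟩ := he
    rw [Finset.mem_offDiag] at hab
    exact (hT1 t ht).isClique hab.1 hab.2.1 hab.2.2
  have hfree : (G.deleteEdges (s : Set (Sym2 (Fin n)))).CliqueFree 3 := by
    intro t ht
    have htG : G.IsNClique 3 t := ht.mono (SimpleGraph.deleteEdges_le _)
    have hdis : ∀ t' ∈ T, (t ∩ t').card ≤ 1 := by
      intro t' ht'
      rw [Finset.card_le_one]
      intro a ha b hb
      by_contra hab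
      rw [Finset.mem_inter] at ha hb
      have h1 := ht.isClique ha.1 hb.1 hab
      rw [SimpleGraph.deleteEdges_adj] at h1
      apply h1.2
      rw [Finset.mem_coe, hs, Finset.mem_biUnion]
      refine ⟨t', ht', ?_⟩
      rw [Finset.mem_image]
      exact ⟨(a, b), Finset.mem_offDiag.2 ⟨ha.2, hb.2, hab⟩, rfl⟩
    have htT : t ∉ T := by
      intro htT
      have := hdis t htT
      rw [Finset.inter_self, ht.card_eq] at this
      omega
    have hP : P (insert t T) := by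
      refine ⟨?_, ?_⟩
      · intro t' ht'
        rcases Finset.mem_insert.1 ht' with rfl | h'
        · exact htG
        · exact hT1 _ h'
      · intro a ha b hb hab
        rcases Finset.mem_insert.1 ha with ha' | ha'
        · rcases Finset.mem_insert.1 hb with hb' | hb'
          · exact absurd (ha'.trans hb'.symm) hab
          · rw [ha']; exact hdis b hb'
        · rcases Finset.mem_insert.1 hb with hb' | hb'
          · rw [hb', Finset.inter_comm]; exact hdis a ha'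
          · exact hT2 a ha' b hb' hab
    have h2 := hmax (insert t T) (Finset.mem_filter.2 ⟨Finset.mem_univ _, hP⟩)
    rw [Finset.card_insert_of_notMem htT] at h2
    omega
  have h3 := h s hsub hfree
  have h4 : (s.card : ℝ) ≤ 3 * (T.card : ℝ) := by exact_mod_cast hcard
  linarith

theorem exists_tri {n : ℕ} (G : SimpleGraph (Fin n)) (T : Finset (Finset (Fin n)))
    (h1 : ∀ t ∈ T, G.IsNClique 3 t) (h2 : ∀ s ∈ T, ∀ t ∈ T, s ≠ t → (s ∩ t).card ≤ 1) :
    ∃ U, Tri G.Adj U ∧ U.card = T.card := by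
  classical
  have key : ∀ t ∈ T, ∃ p : Fin n × Fin n × Fin n, p.1 ≠ p.2.1 ∧ p.1 ≠ p.2.2 ∧ p.2.1 ≠ p.2.2 ∧
      t = {p.1, p.2.1, p.2.2} ∧ p.1 ∈ t ∧ p.2.1 ∈ t ∧ p.2.2 ∈ t := by
    intro t ht
    obtain ⟨x, y, z, hxy, hxz, hyz, rfl⟩ := Finset.card_eq_three.1 (h1 t ht).card_eq
    exact ⟨(x, y, z), hxy, hxz, hyz, rfl, by simp, by simp, by simp⟩
  rcases T.eq_empty_or_nonempty with hTe | ⟨t₀, ht₀⟩
  · subst hTe
    exact ⟨∅, ⟨by simp, by simp⟩, rfl⟩
  have : Nonempty (Fin n) := ⟨(key t₀ ht₀).choose.1⟩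
  choose! p hp1 hp2 hp3 hp4 hm1 hm2 hm3 using key
  have hinj : Set.InjOn p (T : Set (Finset (Fin n))) := by
    intro t ht t' ht' hh
    rw [hp4 t ht, hp4 t' ht', hh]
  refine ⟨T.image p, ⟨?_, ?_⟩, Finset.card_image_of_injOn hinj⟩
  · intro q hq
    rw [Finset.mem_image] at hq
    obtain ⟨t, ht, rfl⟩ := hq
    have hc := (h1 t ht).isClique
    have m1 := hm1 t ht
    have m2 := hm2 t ht
    have m3 := hm3 t ht
    exact ⟨hc m1 m2 (hp1 t ht), hc m1 m3 (hp2 t ht), hc m2 m3 (hp3 t ht)⟩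
  · intro q hq q' hq' hh
    rw [Finset.mem_image] at hq hq'
    obtain ⟨t, ht, rfl⟩ := hq
    obtain ⟨t', ht', rfl⟩ := hq'
    by_contra hne
    have htt : t ≠ t' := fun h => hne (by rw [h])
    have hc := h2 t ht t' ht' htt
    rw [Finset.card_le_one] at hc
    have m : ∀ t ∈ T, (p t).1 ∈ t ∧ (p t).2.1 ∈ t ∧ (p t).2.2 ∈ t :=
      fun t ht => ⟨hm1 t ht, hm2 t ht, hm3 t ht⟩
    have m1 := m t ht
    have m2 := m t' ht'
    rcases hh with ⟨e1, e2⟩ | ⟨e1, e2⟩ | ⟨e1, e2⟩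
    · exact hp1 t ht (hc _ (Finset.mem_inter.2 ⟨m1.1, e1 ▸ m2.1⟩) _
        (Finset.mem_inter.2 ⟨m1.2.1, e2 ▸ m2.2.1⟩))
    · exact hp2 t ht (hc _ (Finset.mem_inter.2 ⟨m1.1, e1 ▸ m2.1⟩) _
        (Finset.mem_inter.2 ⟨m1.2.2, e2 ▸ m2.2.2⟩))
    · exact hp3 t ht (hc _ (Finset.mem_inter.2 ⟨m1.2.1, e1 ▸ m2.2.1⟩) _
        (Finset.mem_inter.2 ⟨m1.2.2, e2 ▸ m2.2.2⟩))

theorem copyCount_le_homs {n k : ℕ} (G : SimpleGraph (Fin n)) (F : SimpleGraph (Fin k)) :
    G.copyCount F ≤ homs F G.Adj := by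
  classical
  refine SimpleGraph.copyCount_le_labelledCopyCount.trans ?_
  unfold SimpleGraph.labelledCopyCount homs
  rw [Fintype.card_eq_nat_card]
  apply Nat.card_le_card_of_injective
    (fun f : SimpleGraph.Copy F G => (⟨fun a => f a, fun a b hab => f.toHom.map_adj hab⟩ :
      {f : Fin k → Fin n // ∀ a b, F.Adj a b → G.Adj (f a) (f b)}))
  intro f g h
  ext a
  have := congrFun (congrArg Subtype.val h) a
  exact congrArg Fin.val this

theorem labelled_le {n k : ℕ} (G : SimpleGraph (Fin n)) (F : SimpleGraph (Fin k)) :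
    Nat.card (SimpleGraph.Copy F G) ≤ k ^ k * G.copyCount F := by
  classical
  have h : G.copyCount F = ((Finset.univ : Finset (SimpleGraph.Copy F G)).image
      SimpleGraph.Copy.toSubgraph).card := by
    rw [SimpleGraph.copyCount_eq_card_image_copyToSubgraph]
  have h2 : Nat.card (SimpleGraph.Copy F G) =
      (Finset.univ : Finset (SimpleGraph.Copy F G)).card := by
    rw [Finset.card_univ, Nat.card_eq_fintype_card]
  rw [h, h2]
  apply Finset.card_le_mul_card_image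
  intro H hH
  rw [Finset.mem_image] at hH
  obtain ⟨f₀, -, rfl⟩ := hH
  have key : ∀ f ∈ Finset.univ.filter
      (fun f : SimpleGraph.Copy F G => f.toSubgraph = f₀.toSubgraph), ∀ i, ∃ j, f₀ j = f i := by
    intro f hf i
    rw [Finset.mem_filter] at hf
    have h1 : f i ∈ f.toSubgraph.verts := by
      simp
    rw [hf.2] at h1
    simpa using h1
  choose! σ hσ using key
  have : k ^ k = (Finset.univ : Finset (Fin k → Fin k)).card := by simp
  rw [this]
  apply Finset.card_le_card_of_injOn σ (fun _ _ => Finset.mem_coe.2 (Finset.mem_univ _))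
  intro f hf g hg hfg
  ext a
  have h1 := hσ f (Finset.mem_coe.1 hf) a
  have h2 := hσ g (Finset.mem_coe.1 hg) a
  rw [← h1, ← h2, hfg]

theorem card_noninj {n k : ℕ} :
    (Finset.univ.filter (fun f : Fin k → Fin n => ¬ Function.Injective f)).card ≤
      k ^ 2 * n ^ (k - 1) := by
  classical
  have h1 : Finset.univ.filter (fun f : Fin k → Fin n => ¬ Function.Injective f) ⊆
      (Finset.univ : Finset (Fin k × Fin k)).biUnion (fun p =>
        Finset.univ.filter (fun f : Fin k → Fin n => p.1 ≠ p.2 ∧ f p.1 = f p.2)) := by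
    intro f hf
    rw [Finset.mem_filter] at hf
    have hf2 := hf.2
    rw [Function.Injective] at hf2
    push Not at hf2
    obtain ⟨a, b, hab, hne⟩ := hf2
    rw [Finset.mem_biUnion]
    exact ⟨(a, b), Finset.mem_univ _, Finset.mem_filter.2 ⟨Finset.mem_univ _, hne, hab⟩⟩
  refine (Finset.card_le_card h1).trans ?_
  refine Finset.card_biUnion_le.trans ?_
  have h2 : ∀ p ∈ (Finset.univ : Finset (Fin k × Fin k)),
      (Finset.univ.filter (fun f : Fin k → Fin n => p.1 ≠ p.2 ∧ f p.1 = f p.2)).card ≤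
        n ^ (k - 1) := by
    rintro ⟨i, j⟩ -
    have hc : n ^ (k - 1) = (Finset.univ : Finset ({x : Fin k // x ≠ i} → Fin n)).card := by
      rw [Finset.card_univ, Fintype.card_fun, Fintype.card_fin]
      congr 1
      simp [Fintype.card_subtype_compl]
    rw [hc]
    apply Finset.card_le_card_of_injOn (fun f x => f x.1)
      (fun _ _ => Finset.mem_coe.2 (Finset.mem_univ _))
    intro f hf g hg hfg
    rw [Finset.mem_coe, Finset.mem_filter] at hf hg
    simp only at hf hg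
    have hfg' : ∀ x, x ≠ i → f x = g x := fun x hx => congrFun hfg ⟨x, hx⟩
    ext x
    by_cases hx : x = i
    · subst hx
      rw [hf.2.2, hg.2.2, hfg' j (Ne.symm hf.2.1)]
    · rw [hfg' x hx]
  calc _ ≤ ∑ p ∈ (Finset.univ : Finset (Fin k × Fin k)), n ^ (k - 1) := Finset.sum_le_sum h2
    _ = k ^ 2 * n ^ (k - 1) := by
      rw [Finset.sum_const, Finset.card_univ, Fintype.card_prod, Fintype.card_fin, smul_eq_mul, sq]

theorem homs_le_copyCount {n k : ℕ} (G : SimpleGraph (Fin n)) (F : SimpleGraph (Fin k)) :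
    homs F G.Adj ≤ k ^ k * G.copyCount F + k ^ 2 * n ^ (k - 1) := by
  classical
  have h0 : homs F G.Adj =
      (Finset.univ.filter (fun f : Fin k → Fin n => ∀ a b, F.Adj a b → G.Adj (f a) (f b))).card := by
    unfold homs
    rw [Nat.card_eq_fintype_card, Fintype.card_subtype]
  rw [h0, ← Finset.card_filter_add_card_filter_not (fun f : Fin k → Fin n => Function.Injective f)]
  apply Nat.add_le_add
  · refine le_trans ?_ (labelled_le G F)
    rw [Nat.card_eq_fintype_card, ← Finset.card_univ]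
    apply Finset.card_le_card_of_surjOn (fun f : SimpleGraph.Copy F G => (fun a => f a))
    intro f hf
    rw [Finset.mem_coe, Finset.mem_filter, Finset.mem_filter] at hf
    exact ⟨⟨⟨f, fun {a b} hab => hf.1.2 a b hab⟩, hf.2⟩, Finset.mem_coe.2 (Finset.mem_univ _), rfl⟩
  · refine le_trans (Finset.card_le_card ?_) card_noninj
    intro f hf
    rw [Finset.mem_filter] at hf ⊢
    exact ⟨Finset.mem_univ _, hf.2⟩

end Pool.Agent.R86.TA
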