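import Mathlib
import Pool.Agent.R86.TA2

/-! A family of graphs is triangle-abundant only if one of its members is. -/

open Finset

namespace Pool.Agent.R86.TA

theorem EpsFar.le_half {n : ℕ} (hn : 0 < n) {ε : ℝ} {G : SimpleGraph (Fin n)}
    (h : EpsFar ε G) : ε ≤ 1 / 2 := by
  classical
  have h1 := h G.edgeFinset (by simp) (by
    have : G.deleteEdges (G.edgeFinset : Set (Sym2 (Fin n))) = ⊥ := by
      simp
    rw [this]
    exact SimpleGraph.cliqueFree_bot (by norm_num))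
  have h2 : (G.edgeFinset.card : ℝ) ≤ (n : ℝ) ^ 2 / 2 := by
    have h3 := G.card_edgeFinset_le_card_choose_two
    rw [Fintype.card_fin] at h3
    have h4 : (G.edgeFinset.card : ℝ) ≤ ((n.choose 2 : ℕ) : ℝ) := by exact_mod_cast h3
    rw [Nat.cast_choose_two] at h4
    have : (0 : ℝ) ≤ n := by positivity
    nlinarith
  have hn' : (0 : ℝ) < (n : ℝ) ^ 2 := by positivity
  by_contra hcon
  push Not at hcon
  nlinarith

theorem ach_of_not_abundant (F : Gr) (hF : ¬ GraphAbundant F) (C' : ℕ) :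
    ∃ e : ℝ, 0 < e ∧ e < 1 ∧ Ach 0 e (fun F' => by classical exact if F' = F then e ^ C' else 1) := by
  classical
  obtain ⟨k, F⟩ := F
  set A : ℕ := k ^ k + k ^ 2 with hA
  set C : ℕ := 3 * C' + A + 1 with hC
  unfold GraphAbundant at hF
  push Not at hF
  obtain ⟨ε, hε0, hε1, hbad⟩ := hF (C : ℝ) (by rw [hC]; positivity)
  have hεC : 0 < ε ^ C := by positivity
  obtain ⟨n, hn, G, hG, hlt⟩ := hbad (⌈1 / ε ^ C⌉₊ + 1)
  have hn0 : 0 < n := by omega
  have hn0' : (0 : ℝ) < n := by exact_mod_cast hn0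
  have hnbig : 1 / ε ^ C ≤ (n : ℝ) := by
    refine (Nat.le_ceil _).trans ?_
    exact_mod_cast (by omega : ⌈1 / ε ^ C⌉₊ ≤ n)
  have hhalf := hG.le_half hn0
  rw [Real.rpow_natCast] at hlt
  simp only at hlt
  obtain ⟨T, hT1, hT2, hT3⟩ := hG.exists_triangles
  obtain ⟨U, hU, hUc⟩ := exists_tri G T hT1 hT2
  have hne : Nonempty (Fin n) := ⟨⟨0, hn0⟩⟩
  refine ⟨ε ^ 3, by positivity, pow_lt_one₀ hε0.le hε1 (by norm_num), Fin n, inferInstance, hne,
    G.Adj, Nat.zero_le _, fun x y h => h.symm, ⟨U, hU, ?_⟩, ?_⟩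
  · rw [hUc, Fintype.card_fin]
    have h1 : ε ^ 3 ≤ ε / 3 := by
      have : ε ^ 2 ≤ 1 / 4 := by nlinarith
      nlinarith
    have h2 : (0 : ℝ) ≤ (n : ℝ) ^ 2 := by positivity
    nlinarith
  · intro F'
    beta_reduce
    split_ifs with hFF
    · subst hFF
      unfold dens
      rw [Fintype.card_fin, Fintype.card_fin, div_le_iff₀ (by positivity)]
      have h1 := homs_le_copyCount G F
      have h2 : (homs F G.Adj : ℝ) ≤ (k : ℝ) ^ k * (G.copyCount F : ℝ) +
          (k : ℝ) ^ 2 * (n : ℝ) ^ (k - 1) := by exact_mod_cast h1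
      have h3 : (k : ℝ) ^ 2 * (n : ℝ) ^ (k - 1) ≤ (k : ℝ) ^ 2 * (ε ^ C * (n : ℝ) ^ k) := by
        rcases Nat.eq_zero_or_pos k with hk | hk
        · subst hk; simp
        · apply mul_le_mul_of_nonneg_left _ (by positivity)
          have : (n : ℝ) ^ k = n * (n : ℝ) ^ (k - 1) := by
            rw [← pow_succ']
            congr 1
            omega
          rw [this]
          have h5 : 1 ≤ ε ^ C * n := by
            rw [div_le_iff₀ hεC] at hnbig
            linarith
          calc (n : ℝ) ^ (k - 1) = 1 * (n : ℝ) ^ (k - 1) := (one_mul _).symm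
            _ ≤ (ε ^ C * n) * (n : ℝ) ^ (k - 1) :=
              mul_le_mul_of_nonneg_right h5 (by positivity)
            _ = _ := by ring
      have h4 : (k : ℝ) ^ k * (G.copyCount F : ℝ) ≤ (k : ℝ) ^ k * (ε ^ C * (n : ℝ) ^ k) :=
        mul_le_mul_of_nonneg_left hlt.le (by positivity)
      have h5 : (homs F G.Adj : ℝ) ≤ ((k : ℝ) ^ k + (k : ℝ) ^ 2) * (ε ^ C * (n : ℝ) ^ k) := by
        linarith
      have h6 : ((k : ℝ) ^ k + (k : ℝ) ^ 2) * ε ^ C ≤ (ε ^ 3) ^ C' := by
        have h7 : ((k : ℝ) ^ k + (k : ℝ) ^ 2) ≤ 2 ^ A := by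
          have : A ≤ 2 ^ A := Nat.lt_two_pow_self.le
          have h8 : (A : ℝ) ≤ 2 ^ A := by exact_mod_cast this
          have h9 : (A : ℝ) = (k : ℝ) ^ k + (k : ℝ) ^ 2 := by rw [hA]; push_cast; ring
          linarith
        calc ((k : ℝ) ^ k + (k : ℝ) ^ 2) * ε ^ C ≤ 2 ^ A * ε ^ C :=
              mul_le_mul_of_nonneg_right h7 (by positivity)
          _ = (2 * ε) ^ A * (ε * (ε ^ 3) ^ C') := by
            rw [hC, mul_pow, ← pow_mul]
            ring
          _ ≤ 1 * (1 * (ε ^ 3) ^ C') := by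
            apply mul_le_mul (pow_le_one₀ (by positivity) (by linarith)) _ (by positivity)
              (by norm_num)
            exact mul_le_mul_of_nonneg_right hε1.le (by positivity)
          _ = (ε ^ 3) ^ C' := by ring
      calc (homs F G.Adj : ℝ) ≤ ((k : ℝ) ^ k + (k : ℝ) ^ 2) * (ε ^ C * (n : ℝ) ^ k) := h5
        _ = (((k : ℝ) ^ k + (k : ℝ) ^ 2) * ε ^ C) * (n : ℝ) ^ k := by ring
        _ ≤ (ε ^ 3) ^ C' * (n : ℝ) ^ k := mul_le_mul_of_nonneg_right h6 (by positivity)
    · exact dens_le_one _ _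

theorem ach_scale (F : Gr) (hF : ¬ GraphAbundant F) (C' : ℕ) :
    ∃ η₀ : ℝ, 0 < η₀ ∧ ∀ η : ℝ, 0 < η → η ≤ η₀ →
      Ach 0 (η ^ 2) (fun F' => by classical exact if F' = F then η ^ C' else 1) := by
  classical
  obtain ⟨e, he0, he1, hA⟩ := ach_of_not_abundant F hF C'
  refine ⟨e, he0, fun η h0 h1 => ?_⟩
  obtain ⟨m, hm1, hm2⟩ := exists_nat_pow_near_of_lt_one h0 (h1.trans he1.le) he0 he1
  have h2 := hA.pow he0.le (m + 1)
  refine h2.mono le_rfl ?_ ?_
  · calc η ^ 2 = η * η := sq η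
      _ ≤ e ^ m * e := mul_le_mul hm2 h1 h0.le (by positivity)
      _ = e ^ (m + 1) := (pow_succ e m).symm
  · intro F'
    split_ifs
    · rw [← pow_mul, mul_comm, pow_mul]
      exact pow_le_pow_left₀ (by positivity) hm1.le _
    · simp

/-- The type of a graph. -/
noncomputable def ty (F : Gr) : Gr := ⟨Nat.card F.2.support, (exists_type F).choose⟩

theorem dens_ty (F : Gr) (V : Type) [Fintype V] [Nonempty V] (R : V → V → Prop) :
    dens F.2 R = dens (ty F).2 R := (exists_type F).choose_spec V R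

theorem finite_small (K : ℕ) : {g : Gr | g.1 ≤ K}.Finite := by
  have : {g : Gr | g.1 ≤ K} ⊆ Set.range
      (fun p : (Σ k : Fin (K + 1), SimpleGraph (Fin k)) => (⟨p.1, p.2⟩ : Gr)) := by
    rintro ⟨k, g⟩ hk
    exact ⟨⟨⟨k, Nat.lt_succ_of_le hk⟩, g⟩, rfl⟩
  exact (Set.finite_range _).subset this

theorem ach_scale_ty (F : Gr) (hF : ¬ GraphAbundant F) (C' : ℕ) :
    ∃ η₀ : ℝ, 0 < η₀ ∧ ∀ η : ℝ, 0 < η → η ≤ η₀ →
      Ach 0 (η ^ 2) (fun F' => by classical exact if ty F' = ty F then η ^ C' else 1) := by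
  classical
  obtain ⟨η₀, h0, h⟩ := ach_scale F hF C'
  refine ⟨η₀, h0, fun η h1 h2 => ?_⟩
  obtain ⟨V, i1, i2, R, hm, hR, hT, hb⟩ := h η h1 h2
  refine ⟨V, i1, i2, R, hm, hR, hT, fun F' => ?_⟩
  beta_reduce
  split_ifs with hty
  · rw [dens_ty, hty, ← dens_ty]
    have := hb F
    simpa using this
  · exact dens_le_one _ _

theorem ach_finset (S : Finset Gr) (hS : ∀ x ∈ S, ∃ F, ty F = x ∧ ¬ GraphAbundant F) (C' : ℕ) :
    ∃ η₀ : ℝ, 0 < η₀ ∧ ∀ η : ℝ, 0 < η → η ≤ η₀ →
      Ach 0 ((η ^ 2) ^ S.card) (fun F' => by classical exact if ty F' ∈ S then η ^ C' else 1) := by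
  classical
  have key : ∀ x ∈ S, ∃ η₀ : ℝ, 0 < η₀ ∧ ∀ η : ℝ, 0 < η → η ≤ η₀ →
      Ach 0 (η ^ 2) (fun F' => if ty F' = x then η ^ C' else 1) := by
    intro x hx
    obtain ⟨F, rfl, hF⟩ := hS x hx
    exact ach_scale_ty F hF C'
  choose! η₀ h0 h using key
  rcases S.eq_empty_or_nonempty with hSe | hSn
  · refine ⟨1, one_pos, fun η _ _ => ?_⟩
    subst hSe
    simpa using Ach.full 0
  · refine ⟨S.inf' hSn η₀, (Finset.lt_inf'_iff _).2 h0, fun η h1 h2 => ?_⟩
    have h3 : ∀ x ∈ S, Ach 0 (η ^ 2) (fun F' => if ty F' = x then η ^ C' else 1) := by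
      intro x hx
      exact h x hx η h1 (h2.trans (Finset.inf'_le _ hx))
    have h4 := Ach.prod S (η ^ 2) (by positivity) (fun x F' => if ty F' = x then η ^ C' else 1) h3
    refine h4.mono le_rfl le_rfl (fun F' => ?_)
    rw [Finset.prod_ite_eq]

/-- From relations back to graphs. -/
theorem Ach.exists_graph {m : ℕ} {a : ℝ} {b : Gr → ℝ} (h : Ach m a b) :
    ∃ n, m ≤ n ∧ 0 < n ∧ ∃ G : SimpleGraph (Fin n), ManyTriangles (a / 9) G ∧
      ∀ F : Gr, (G.copyCount F.2 : ℝ) ≤ b F * (n : ℝ) ^ F.1 := by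
  classical
  obtain ⟨V, i1, i2, R, hm, hR, ⟨T, hT, hTc⟩, hb⟩ := h
  let n := Fintype.card (V × Fin 3)
  let e : (V × Fin 3) ≃ Fin n := Fintype.equivFin _
  let Q : V × Fin 3 → V × Fin 3 → Prop := prodRel R (fun i j => i ≠ j)
  let G : SimpleGraph (Fin n) :=
    { Adj := fun x y => Q (e.symm x) (e.symm y)
      symm := ⟨fun x y hxy => ⟨hR _ _ hxy.1, hxy.2.symm⟩⟩
      loopless := ⟨fun x hx => hx.2 rfl⟩ }
  have hn : n = Fintype.card V * 3 := by simp [n, Fintype.card_prod]
  have hV : 0 < Fintype.card V := Fintype.card_pos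
  refine ⟨n, by omega, by omega, G, ?_, ?_⟩
  · let tri : V × V × V → Finset (Fin n) := fun t => {e (t.1, 0), e (t.2.1, 1), e (t.2.2, 2)}
    have hmem : ∀ t : V × V × V, ∀ x, x ∈ tri t ↔ x = e (t.1, 0) ∨ x = e (t.2.1, 1) ∨
        x = e (t.2.2, 2) := by
      intro t x
      simp [tri]
    have hne01 : ∀ x y : V, e (x, 0) ≠ e (y, 1) := by
      intro x y hxy
      have := e.injective hxy
      simp at this
    have hne02 : ∀ x y : V, e (x, 0) ≠ e (y, 2) := by
      intro x y hxy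
      have := e.injective hxy
      simp at this
    have hne12 : ∀ x y : V, e (x, 1) ≠ e (y, 2) := by
      intro x y hxy
      have := e.injective hxy
      simp at this
    have hinj : Set.InjOn tri (T : Set (V × V × V)) := by
      intro s hs t ht hst
      have h0 : e (s.1, 0) ∈ tri t := by rw [← hst, hmem]; simp
      have h1 : e (s.2.1, 1) ∈ tri t := by rw [← hst, hmem]; simp
      have h2 : e (s.2.2, 2) ∈ tri t := by rw [← hst, hmem]; simp
      rw [hmem] at h0 h1 h2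
      have e0 : s.1 = t.1 := by
        rcases h0 with h | h | h
        · have := e.injective h; simpa using this
        · exact absurd h (hne01 _ _)
        · exact absurd h (hne02 _ _)
      have e1 : s.2.1 = t.2.1 := by
        rcases h1 with h | h | h
        · exact absurd h.symm (hne01 _ _)
        · have := e.injective h; simpa using this
        · exact absurd h (hne12 _ _)
      exact hT.2 s hs t ht (Or.inl ⟨e0, e1⟩)
    refine ⟨T.image tri, ?_, ?_, ?_⟩
    · intro t ht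
      rw [Finset.mem_image] at ht
      obtain ⟨t, ht, rfl⟩ := ht
      have hR3 := hT.1 t ht
      rw [SimpleGraph.is3Clique_iff]
      refine ⟨e (t.1, 0), e (t.2.1, 1), e (t.2.2, 2), ?_, ?_, ?_, rfl⟩
      · change Q _ _
        rw [e.symm_apply_apply, e.symm_apply_apply]
        exact ⟨hR3.1, by simp⟩
      · change Q _ _
        rw [e.symm_apply_apply, e.symm_apply_apply]
        exact ⟨hR3.2.1, by simp⟩
      · change Q _ _
        rw [e.symm_apply_apply, e.symm_apply_apply]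
        exact ⟨hR3.2.2, by simp⟩
    · intro s hs t ht hst
      rw [Finset.mem_image] at hs ht
      obtain ⟨s, hs, rfl⟩ := hs
      obtain ⟨t, ht, rfl⟩ := ht
      have hst' : s ≠ t := fun h => hst (by rw [h])
      have hc := hT.2 s hs t ht
      rw [Finset.card_le_one]
      intro x hx y hy
      by_contra hxy
      rw [Finset.mem_inter, hmem, hmem] at hx hy
      have hinj' : ∀ (u v : V) (i : Fin 3), e (u, i) = e (v, i) → u = v := by
        intro u v i h
        have := e.injective h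
        simpa using this
      have hne10 : ∀ x y : V, e (x, 1) ≠ e (y, 0) := fun x y h => hne01 y x h.symm
      have hne20 : ∀ x y : V, e (x, 2) ≠ e (y, 0) := fun x y h => hne02 y x h.symm
      have hne21 : ∀ x y : V, e (x, 2) ≠ e (y, 1) := fun x y h => hne12 y x h.symm
      obtain ⟨hx1, hx2⟩ := hx
      obtain ⟨hy1, hy2⟩ := hy
      have hxs : (x = e (s.1, 0) ∧ s.1 = t.1) ∨ (x = e (s.2.1, 1) ∧ s.2.1 = t.2.1) ∨
          (x = e (s.2.2, 2) ∧ s.2.2 = t.2.2) := by
        rcases hx1 with rfl | rfl | rfl <;> rcases hx2 with h | h | h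
        · exact Or.inl ⟨rfl, hinj' _ _ _ h⟩
        · exact absurd h (hne01 _ _)
        · exact absurd h (hne02 _ _)
        · exact absurd h (hne10 _ _)
        · exact Or.inr (Or.inl ⟨rfl, hinj' _ _ _ h⟩)
        · exact absurd h (hne12 _ _)
        · exact absurd h (hne20 _ _)
        · exact absurd h (hne21 _ _)
        · exact Or.inr (Or.inr ⟨rfl, hinj' _ _ _ h⟩)
      have hys : (y = e (s.1, 0) ∧ s.1 = t.1) ∨ (y = e (s.2.1, 1) ∧ s.2.1 = t.2.1) ∨
          (y = e (s.2.2, 2) ∧ s.2.2 = t.2.2) := by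
        rcases hy1 with rfl | rfl | rfl <;> rcases hy2 with h | h | h
        · exact Or.inl ⟨rfl, hinj' _ _ _ h⟩
        · exact absurd h (hne01 _ _)
        · exact absurd h (hne02 _ _)
        · exact absurd h (hne10 _ _)
        · exact Or.inr (Or.inl ⟨rfl, hinj' _ _ _ h⟩)
        · exact absurd h (hne12 _ _)
        · exact absurd h (hne20 _ _)
        · exact absurd h (hne21 _ _)
        · exact Or.inr (Or.inr ⟨rfl, hinj' _ _ _ h⟩)
      apply hst'
      apply hc
      rcases hxs with ⟨h1, h2⟩ | ⟨h1, h2⟩ | ⟨h1, h2⟩ <;>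
        rcases hys with ⟨h3, h4⟩ | ⟨h3, h4⟩ | ⟨h3, h4⟩
      · exact absurd (h1.trans h3.symm) hxy
      · exact Or.inl ⟨h2, h4⟩
      · exact Or.inr (Or.inl ⟨h2, h4⟩)
      · exact Or.inl ⟨h4, h2⟩
      · exact absurd (h1.trans h3.symm) hxy
      · exact Or.inr (Or.inr ⟨h2, h4⟩)
      · exact Or.inr (Or.inl ⟨h4, h2⟩)
      · exact Or.inr (Or.inr ⟨h4, h2⟩)
      · exact absurd (h1.trans h3.symm) hxy
    · rw [Finset.card_image_of_injOn hinj, hn]
      refine le_trans (le_of_eq ?_) hTc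
      push_cast
      ring
  · intro F
    have h1 : (G.copyCount F.2 : ℝ) ≤ (homs F.2 G.Adj : ℝ) := by
      exact_mod_cast copyCount_le_homs G F.2
    have h2 : homs F.2 Q = homs F.2 G.Adj := by
      apply homs_congr_equiv _ _ _ e
      intro x y
      change Q x y ↔ Q (e.symm (e x)) (e.symm (e y))
      rw [e.symm_apply_apply, e.symm_apply_apply]
    have h3 : dens F.2 Q ≤ b F := by
      change dens F.2 (prodRel R (fun i j : Fin 3 => i ≠ j)) ≤ b F
      rw [dens_prod]
      calc dens F.2 R * dens F.2 (fun i j : Fin 3 => i ≠ j) ≤ dens F.2 R * 1 :=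
            mul_le_mul_of_nonneg_left (dens_le_one _ _) (dens_nonneg _ _)
        _ = dens F.2 R := mul_one _
        _ ≤ b F := hb F
    unfold dens at h3
    have hnpos : (0 : ℝ) < (Fintype.card (V × Fin 3) : ℝ) := by
      have : 0 < n := by omega
      exact_mod_cast this
    rw [div_le_iff₀ (by positivity), Fintype.card_fin, h2] at h3
    exact h1.trans h3

theorem ManyTriangles.mono {n : ℕ} {ε ε' : ℝ} {G : SimpleGraph (Fin n)}
    (h : ManyTriangles ε G) (hε : ε' ≤ ε) : ManyTriangles ε' G := by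
  obtain ⟨T, h1, h2, h3⟩ := h
  exact ⟨T, h1, h2, le_trans (mul_le_mul_of_nonneg_right hε (by positivity)) h3⟩

theorem family_abundant_iff (𝓕 : Set Gr) :
    FamilyAbundant 𝓕 ↔ ∃ F ∈ 𝓕, GraphAbundant F := by
  classical
  constructor
  · rintro ⟨C, hC0, hC⟩
    by_contra hcon
    push Not at hcon
    set c : ℕ := ⌈C⌉₊ with hc
    have hCc : C ≤ (c : ℝ) := Nat.le_ceil C
    set K : ℕ := 2 * c with hK
    have hfin : {x : Gr | ∃ F ∈ 𝓕, Nat.card F.2.support ≤ K ∧ ty F = x}.Finite := by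
      refine (finite_small K).subset ?_
      rintro x ⟨F, -, hF, rfl⟩
      exact hF
    set S : Finset Gr := hfin.toFinset with hS
    set r := S.card with hr
    set D : ℕ := (2 * r + 1) * c + 1 with hD
    set C' : ℕ := (2 * r + 2 * D + 1) * c + 1 with hC'
    obtain ⟨η₀, hη₀, hη⟩ := ach_finset S (by
      intro x hx
      rw [hS, Set.Finite.mem_toFinset] at hx
      obtain ⟨F, hF1, hF2, hF3⟩ := hx
      exact ⟨F, hF3, hcon F hF1⟩) C'
    obtain ⟨L₀, hL₀⟩ := exists_nat_gt (1 / η₀)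
    set L : ℕ := L₀ + 9 with hL
    set x : ℝ := 1 / (L : ℝ) with hx
    have hLpos : (0 : ℝ) < L := by rw [hL]; positivity
    have hx0 : 0 < x := by rw [hx]; positivity
    have hL9 : (9 : ℝ) ≤ L := by rw [hL]; push_cast; linarith [(Nat.cast_nonneg L₀ : (0:ℝ) ≤ L₀)]
    have hx9 : x ≤ 1 / 9 := by
      rw [hx]
      exact one_div_le_one_div_of_le (by norm_num) hL9
    have hx1 : x < 1 := by linarith
    have hxη : x ≤ η₀ := by
      rw [hx, div_le_iff₀ hLpos]
      rw [div_lt_iff₀ hη₀] at hL₀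
      have : (L₀ : ℝ) ≤ L := by rw [hL]; push_cast; linarith
      nlinarith
    have hP := hη x hx0 hxη
    have hMpos : 0 < L ^ D := by positivity
    have hPad := Ach.pad (L ^ D) hMpos
    set ε' : ℝ := x ^ (2 * r + 2 * D + 1) with hε'
    have hε'0 : 0 < ε' := by positivity
    have hε'1 : ε' < 1 := pow_lt_one₀ hx0.le hx1 (by omega)
    obtain ⟨n₀, hn₀⟩ := hC ε' hε'0 hε'1
    have hA := (Ach.full n₀).mul (by positivity) (hP.mul (by positivity) hPad)
    obtain ⟨n, hn1, hn2, G, hG, hGb⟩ := hA.exists_graph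
    have hxM : 1 / (((L ^ D : ℕ) : ℝ)) = x ^ D := by
      rw [hx, one_div_pow]
      push_cast
      rfl
    have ha : ε' ≤ (1 * ((x ^ 2) ^ r * (1 / (((L ^ D : ℕ) : ℝ)) ^ 2))) / 9 := by
      rw [← one_div_pow, hxM, hε']
      have : x ^ (2 * r + 2 * D + 1) = ((x ^ 2) ^ r * (x ^ D) ^ 2) * x := by
        rw [← pow_mul, ← pow_mul]
        ring
      rw [this, one_mul, le_div_iff₀ (by norm_num)]
      have hpos : 0 < (x ^ 2) ^ r * (x ^ D) ^ 2 := by positivity
      nlinarith
    obtain ⟨F, hF𝓕, hFle⟩ := hn₀ n hn1 G (hG.mono ha)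
    have h1 := hFle.trans (hGb F)
    have hnpos : (0 : ℝ) < (n : ℝ) ^ F.1 := by positivity
    have h2 := le_of_mul_le_mul_right h1 hnpos
    have h3 : ε' ^ c ≤ ε' ^ C := by
      rw [← Real.rpow_natCast]
      exact Real.rpow_le_rpow_of_exponent_ge hε'0 hε'1.le hCc
    have h4 : ε' ^ c = x ^ ((2 * r + 2 * D + 1) * c) := by rw [hε', ← pow_mul]
    have h5 : x ^ ((2 * r + 2 * D + 1) * c + 1) < x ^ ((2 * r + 2 * D + 1) * c) :=
      pow_lt_pow_right_of_lt_one₀ hx0 hx1 (by omega)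
    have h6 : (1 : ℝ) * ((if ty F ∈ S then x ^ C' else 1) *
        (1 / ((L ^ D : ℕ) : ℝ) ^ (Nat.card F.2.support))) ≤
          x ^ ((2 * r + 2 * D + 1) * c + 1) := by
      rw [one_mul, ← one_div_pow, hxM]
      by_cases hFK : Nat.card F.2.support ≤ K
      · have hty : ty F ∈ S := by
          rw [hS, Set.Finite.mem_toFinset]
          exact ⟨F, hF𝓕, hFK, rfl⟩
        rw [if_pos hty, hC']
        have : (x ^ D) ^ (Nat.card F.2.support) ≤ 1 :=
          pow_le_one₀ (by positivity) (pow_le_one₀ hx0.le hx1.le)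
        calc x ^ ((2 * r + 2 * D + 1) * c + 1) * (x ^ D) ^ (Nat.card F.2.support)
            ≤ x ^ ((2 * r + 2 * D + 1) * c + 1) * 1 :=
              mul_le_mul_of_nonneg_left this (by positivity)
          _ = _ := mul_one _
      · push Not at hFK
        have hle1 : (if ty F ∈ S then x ^ C' else 1) ≤ (1 : ℝ) := by
          split_ifs
          · exact pow_le_one₀ hx0.le hx1.le
          · exact le_rfl
        calc (if ty F ∈ S then x ^ C' else 1) * (x ^ D) ^ (Nat.card F.2.support)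
            ≤ 1 * (x ^ D) ^ (Nat.card F.2.support) :=
              mul_le_mul_of_nonneg_right hle1 (by positivity)
          _ = x ^ (D * Nat.card F.2.support) := by rw [one_mul, ← pow_mul]
          _ ≤ x ^ ((2 * r + 2 * D + 1) * c + 1) := by
            apply pow_le_pow_of_le_one hx0.le hx1.le
            calc (2 * r + 2 * D + 1) * c + 1 = D + 2 * D * c := by rw [hD]; ring
              _ = D * (K + 1) := by rw [hK]; ring
              _ ≤ D * Nat.card F.2.support := Nat.mul_le_mul_left _ hFK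
    linarith
  · rintro ⟨F, hF, C, hC0, hC⟩
    refine ⟨C, hC0, fun ε h0 h1 => ?_⟩
    obtain ⟨n₀, hn₀⟩ := hC ε h0 h1
    exact ⟨n₀, fun n hn G hG => ⟨F, hF, hn₀ n hn G hG.epsFar⟩⟩

end Pool.Agent.R86.TA
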