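import Mathlib

set_option autoImplicit false

/-!
Tensor powers of a symmetric relation and the number of copies of `K_3` and `K_{3,t}`.
-/

namespace Pool.Agent.R86.TriSup

open Finset

set_option linter.unusedSectionVars false

variable {V : Type} [Fintype V]

/-- the graph on `(Fin M → V) × Fin 3` in which `(x, i)` and `(y, j)` are adjacent when `i ≠ j` and
`x m`, `y m` are related for every `m` -/
def pw (R : V → V → Prop) (hR : ∀ x y, R x y → R y x) (M : ℕ) :
    SimpleGraph ((Fin M → V) × Fin 3) where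
  Adj a b := a.2 ≠ b.2 ∧ ∀ m, R (a.1 m) (b.1 m)
  symm := ⟨fun _ _ h => ⟨h.1.symm, fun m => hR _ _ (h.2 m)⟩⟩
  loopless := ⟨fun _ h => h.1 rfl⟩

/-- homomorphisms of the triangle -/
def Tri (R : V → V → Prop) : Type := {f : Fin 3 → V // ∀ i j, i ≠ j → R (f i) (f j)}

/-- homomorphisms of `K_{3,t}` -/
def Bip (R : V → V → Prop) (t : ℕ) : Type :=
  {f : Fin 3 ⊕ Fin t → V // ∀ i j, R (f (Sum.inl i)) (f (Sum.inr j))}

instance (R : V → V → Prop) : Finite (Tri R) := Subtype.finite
instance (R : V → V → Prop) (t : ℕ) : Finite (Bip R t) := Subtype.finite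

theorem labelled_eq {W : Type} [Fintype W] {U : Type} [Fintype U] (G : SimpleGraph W)
    (H : SimpleGraph U) : G.labelledCopyCount H = Nat.card (H.Copy G) := by
  classical
  unfold SimpleGraph.labelledCopyCount
  rw [Nat.card_eq_fintype_card]

/-- the coordinates of a copy of `K_{3,t}` -/
def FB (R : V → V → Prop) (hR : ∀ x y, R x y → R y x) (M t : ℕ)
    (c : (completeBipartiteGraph (Fin 3) (Fin t)).Copy (pw R hR M)) :
    (Fin M → Bip R t) × (Fin 3 ⊕ Fin t → Fin 3) :=
  (fun m => ⟨fun a => (c.toHom a).1 m, fun i j =>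
      (c.toHom.map_adj (show (completeBipartiteGraph (Fin 3) (Fin t)).Adj (Sum.inl i) (Sum.inr j)
        from by simp)).2 m⟩, fun a => (c.toHom a).2)

theorem FB_inj (R : V → V → Prop) (hR : ∀ x y, R x y → R y x) (M t : ℕ) :
    Function.Injective (FB R hR M t) := by
  intro c c' h
  have key : ∀ a, c.toHom a = c'.toHom a := by
    intro a
    refine Prod.ext (funext fun m => ?_) ?_
    · have h1 := congrArg Prod.fst h
      have h2 := congrFun h1 m
      have h3 := congrArg Subtype.val h2
      exact congrFun h3 a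
    · exact congrFun (congrArg Prod.snd h) a
  exact SimpleGraph.Copy.ext key

theorem copies_bip (R : V → V → Prop) (hR : ∀ x y, R x y → R y x) (M t : ℕ) :
    (pw R hR M).copyCount (completeBipartiteGraph (Fin 3) (Fin t)) ≤
      Nat.card (Bip R t) ^ M * 3 ^ (3 + t) := by
  refine SimpleGraph.copyCount_le_labelledCopyCount.trans ?_
  rw [labelled_eq]
  refine (Nat.card_le_card_of_injective _ (FB_inj R hR M t)).trans ?_
  rw [Nat.card_prod, Nat.card_fun, Nat.card_fun]
  simp

/-- a tuple of triangle homomorphisms gives a copy of the triangle -/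
def FT (R : V → V → Prop) (hR : ∀ x y, R x y → R y x) (M : ℕ) (g : Fin M → Tri R) :
    (⊤ : SimpleGraph (Fin 3)).Copy (pw R hR M) :=
  ⟨⟨fun i => (fun m => (g m).1 i, i), fun {i j} h => ⟨h, fun m => (g m).2 i j h⟩⟩,
    fun _ _ h => congrArg Prod.snd h⟩

theorem FT_inj (R : V → V → Prop) (hR : ∀ x y, R x y → R y x) (M : ℕ) :
    Function.Injective (FT R hR M) := by
  intro g g' h
  funext m
  apply Subtype.ext
  funext i
  have h1 : (FT R hR M g).toHom i = (FT R hR M g').toHom i := by rw [h]
  have h2 := congrArg Prod.fst h1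
  exact congrFun h2 m

theorem finite_copy {W U : Type} [Finite W] [Finite U] (G : SimpleGraph W) (H : SimpleGraph U) :
    Finite (H.Copy G) :=
  Finite.of_injective (fun c : H.Copy G => (fun a => c.toHom a : U → W))
    (fun _ _ h => SimpleGraph.Copy.ext fun a => congrFun h a)

theorem copyCount_eq {W : Type} [Fintype W] {U : Type} (G : SimpleGraph W)
    (H : SimpleGraph U) : G.copyCount H = Nat.card {S : G.Subgraph // Nonempty (H ≃g S.coe)} := by
  classical
  unfold SimpleGraph.copyCount
  rw [Nat.card_eq_fintype_card, Fintype.card_subtype]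

/-- the range of a copy is the vertex set of its subgraph -/
theorem mem_verts {W U : Type} {G : SimpleGraph W} {H : SimpleGraph U} (c : H.Copy G) (w : W) :
    w ∈ c.toSubgraph.verts ↔ ∃ a, c.toHom a = w := by
  simp [SimpleGraph.Copy.toSubgraph]

theorem labelled_le {W : Type} [Fintype W] (G : SimpleGraph W) :
    G.labelledCopyCount (⊤ : SimpleGraph (Fin 3)) ≤ G.copyCount (⊤ : SimpleGraph (Fin 3)) * 27 := by
  classical
  rw [labelled_eq, copyCount_eq]
  have hc0 : ∀ S : {S : G.Subgraph // Nonempty ((⊤ : SimpleGraph (Fin 3)) ≃g S.coe)},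
      ∃ c0 : (⊤ : SimpleGraph (Fin 3)).Copy G, c0.toSubgraph = S.1 := by
    rintro ⟨S, hS⟩
    have h : S ∈ Set.range (SimpleGraph.Copy.toSubgraph :
        (⊤ : SimpleGraph (Fin 3)).Copy G → G.Subgraph) := by
      rw [SimpleGraph.Copy.range_toSubgraph]
      exact hS
    exact h
  choose c0 hc0 using hc0
  let sg : (⊤ : SimpleGraph (Fin 3)).Copy G →
      {S : G.Subgraph // Nonempty ((⊤ : SimpleGraph (Fin 3)) ≃g S.coe)} :=
    fun c => ⟨c.toSubgraph, ⟨c.isoToSubgraph⟩⟩
  have hr : ∀ c : (⊤ : SimpleGraph (Fin 3)).Copy G, ∀ i, ∃ j, (c0 (sg c)).toHom j = c.toHom i := by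
    intro c i
    rw [← mem_verts, hc0]
    exact (mem_verts c _).2 ⟨i, rfl⟩
  choose g hg using hr
  have hinj : Function.Injective (fun c => (sg c, g c) : (⊤ : SimpleGraph (Fin 3)).Copy G →
      {S : G.Subgraph // Nonempty ((⊤ : SimpleGraph (Fin 3)) ≃g S.coe)} × (Fin 3 → Fin 3)) := by
    intro c c' h
    have h1 : sg c = sg c' := congrArg Prod.fst h
    have h2 : g c = g c' := congrArg Prod.snd h
    refine SimpleGraph.Copy.ext fun i => ?_
    calc c.toHom i = (c0 (sg c)).toHom (g c i) := (hg c i).symm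
      _ = (c0 (sg c')).toHom (g c' i) := by rw [h1, h2]
      _ = c'.toHom i := hg c' i
  have h := Nat.card_le_card_of_injective _ hinj
  rw [Nat.card_prod, Nat.card_fun] at h
  simpa using h

theorem copies_tri (R : V → V → Prop) (hR : ∀ x y, R x y → R y x) (M : ℕ) :
    Nat.card (Tri R) ^ M ≤ (pw R hR M).copyCount (⊤ : SimpleGraph (Fin 3)) * 27 := by
  refine le_trans ?_ (labelled_le _)
  rw [labelled_eq]
  have := finite_copy (pw R hR M) (⊤ : SimpleGraph (Fin 3))
  refine le_trans ?_ (Nat.card_le_card_of_injective _ (FT_inj R hR M))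
  rw [Nat.card_fun]
  simp

end Pool.Agent.R86.TriSup
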