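import Pool.Agent.R86.TriSup

set_option autoImplicit false

namespace Pool.Agent.R86.TriSup

open Filter Topology

theorem exists_delta (v ρ : ℝ) (hv : 0 < v) (hρ : ρ < 1) :
    ∃ δ : ℝ, 0 < δ ∧ δ ≤ 1 ∧ ρ * v ^ δ < 1 := by
  have h1 : Tendsto (fun δ : ℝ => ρ * v ^ δ) (𝓝 0) (𝓝 (ρ * v ^ (0 : ℝ))) :=
    ((Real.continuousAt_const_rpow hv.ne').tendsto).const_mul ρ
  rw [Real.rpow_zero, mul_one] at h1
  have h2 : ∀ᶠ δ : ℝ in 𝓝 0, ρ * v ^ δ < 1 := h1.eventually_lt_const hρ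
  have h3 : ∀ᶠ δ : ℝ in 𝓝[>] 0, ρ * v ^ δ < 1 := nhdsWithin_le_nhds h2
  have h4 : ∀ᶠ δ : ℝ in 𝓝[>] 0, δ ∈ Set.Ioc (0:ℝ) 1 := Ioc_mem_nhdsGT zero_lt_one
  obtain ⟨δ, h5, h6⟩ := (h3.and h4).exists
  exact ⟨δ, h6.1, h6.2, h5⟩

theorem main_of_ratio {V : Type} [Fintype V] (R : V → V → Prop) (hR : ∀ x y, R x y → R y x)
    (t : ℕ) (h1 : (Fintype.card V) ^ 2 < Nat.card (Tri R))
    (h2 : Nat.card (Bip R t) * (Fintype.card V) ^ (2 * t) <
      Nat.card (Tri R) ^ t * (Fintype.card V) ^ 3) :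
    ∃ δ : ℝ, 0 < δ ∧ ∀ (k₀ : ℝ) (N : ℕ), ∃ (W : Type) (_ : Fintype W) (G : SimpleGraph W) (k : ℝ),
      N ≤ Fintype.card W ∧ k₀ ≤ k ∧
      (G.copyCount (⊤ : SimpleGraph (Fin 3)) : ℝ) = k * (Fintype.card W : ℝ) ^ 2 ∧
      (G.copyCount (completeBipartiteGraph (Fin 3) (Fin t)) : ℝ) <
        k ^ t * (Fintype.card W : ℝ) ^ (3 - δ) := by
  set v := Fintype.card V with hv
  set T := Nat.card (Tri R) with hT
  set H := Nat.card (Bip R t) with hH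
  have hTv : Nat.card (Tri R) ≤ v ^ 3 := by
    have := Nat.card_le_card_of_injective (fun f : Tri R => (f.1 : Fin 3 → V))
      (fun _ _ h => Subtype.ext h)
    simpa using this
  have hv2 : 2 ≤ v := by
    by_contra hcon
    have : v = 0 ∨ v = 1 := by omega
    rcases this with h | h
    · rw [h] at h1 hTv; simp at hTv; omega
    · rw [h] at h1 hTv; omega
  have hvR : (2 : ℝ) ≤ v := by exact_mod_cast hv2
  have hv0 : (0 : ℝ) < v := by linarith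
  have hT0 : (0 : ℝ) < T := by
    have : 0 < T := lt_of_le_of_lt (Nat.zero_le _) h1
    exact_mod_cast this
  have hden : (0 : ℝ) < (T : ℝ) ^ t * v ^ 3 := by positivity
  set ρ : ℝ := (H : ℝ) * v ^ (2 * t) / ((T : ℝ) ^ t * v ^ 3) with hρ
  have hρ1 : ρ < 1 := by
    rw [hρ, div_lt_one hden]
    exact_mod_cast h2
  have hρ0 : 0 ≤ ρ := by positivity
  obtain ⟨δ, hδ0, hδ1, hδ⟩ := exists_delta v ρ hv0 hρ1
  refine ⟨δ, hδ0, fun k₀ N => ?_⟩
  set σ : ℝ := ρ * (v : ℝ) ^ δ with hσ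
  have hσ0 : 0 ≤ σ := by positivity
  have ht1 : Tendsto (fun M : ℕ => (3 ^ (3 + t) * 243 ^ t : ℝ) * σ ^ M) atTop (𝓝 0) := by
    have := (tendsto_pow_atTop_nhds_zero_of_lt_one hσ0 hδ).const_mul
      ((3 : ℝ) ^ (3 + t) * 243 ^ t)
    simpa using this
  have hr1 : (1 : ℝ) < (T : ℝ) / v ^ 2 := by
    rw [one_lt_div (by positivity)]
    exact_mod_cast h1
  have ht2 : Tendsto (fun M : ℕ => ((T : ℝ) / v ^ 2) ^ M) atTop atTop :=
    tendsto_pow_atTop_atTop_of_one_lt hr1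
  obtain ⟨M, ⟨hM1, hM2⟩, hM3⟩ := (((ht1.eventually_lt_const (u := 1) zero_lt_one).and
    (ht2.eventually_ge_atTop (243 * k₀))).and (eventually_ge_atTop N)).exists
  set G := pw R hR M with hG
  have hcard : Fintype.card ((Fin M → V) × Fin 3) = v ^ M * 3 := by
    rw [Fintype.card_prod, Fintype.card_fun]
    simp [hv]
  have hn0 : (0 : ℝ) < (v : ℝ) ^ M * 3 := by positivity
  set k : ℝ := (G.copyCount (⊤ : SimpleGraph (Fin 3)) : ℝ) / ((v : ℝ) ^ M * 3) ^ 2 with hk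
  have hkl : ((T : ℝ) / v ^ 2) ^ M / 243 ≤ k := by
    have h3 := copies_tri R hR M
    have h3' : (T : ℝ) ^ M ≤ (G.copyCount (⊤ : SimpleGraph (Fin 3)) : ℝ) * 27 := by
      exact_mod_cast h3
    rw [hk, div_pow, div_div, div_le_div_iff₀ (by positivity) (by positivity)]
    have e : ((v : ℝ) ^ M * 3) ^ 2 = 9 * ((v : ℝ) ^ 2) ^ M := by ring
    rw [e]
    have : (0 : ℝ) < ((v : ℝ) ^ 2) ^ M := by positivity
    nlinarith
  have hcR : ((Fintype.card ((Fin M → V) × Fin 3) : ℕ) : ℝ) = (v : ℝ) ^ M * 3 := by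
    rw [hcard]; push_cast; ring
  refine ⟨(Fin M → V) × Fin 3, inferInstance, G, k, ?_, ?_, ?_, ?_⟩
  · rw [hcard]
    calc N ≤ M := hM3
      _ ≤ 2 ^ M := Nat.lt_two_pow_self.le
      _ ≤ v ^ M := Nat.pow_le_pow_left hv2 M
      _ ≤ v ^ M * 3 := by omega
  · linarith
  · rw [hcR, hk]
    field_simp
  · rw [hcR]
    have h4 := copies_bip R hR M t
    have h4' : (G.copyCount (completeBipartiteGraph (Fin 3) (Fin t)) : ℝ) ≤
        (H : ℝ) ^ M * 3 ^ (3 + t) := by exact_mod_cast h4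
    refine lt_of_le_of_lt h4' ?_
    have h5 : (((T : ℝ) / v ^ 2) ^ M / 243) ^ t ≤ k ^ t :=
      pow_le_pow_left₀ (by positivity) hkl t
    have h6 : (v : ℝ) ^ (3 * M) / ((v : ℝ) ^ δ) ^ M ≤ ((v : ℝ) ^ M * 3) ^ (3 - δ) := by
      rw [Real.mul_rpow (by positivity) (by norm_num)]
      have e1 : ((v : ℝ) ^ M) ^ (3 - δ) = (v : ℝ) ^ (3 * M) / ((v : ℝ) ^ δ) ^ M := by
        rw [← Real.rpow_natCast (v : ℝ) M, ← Real.rpow_mul hv0.le, ← Real.rpow_natCast (v : ℝ) (3 * M),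
          ← Real.rpow_natCast ((v : ℝ) ^ δ) M, ← Real.rpow_mul hv0.le, ← Real.rpow_sub hv0]
        congr 1
        push_cast
        ring
      rw [e1]
      have h7 : (1 : ℝ) ≤ 3 ^ (3 - δ) := Real.one_le_rpow (by norm_num) (by linarith)
      exact le_mul_of_one_le_right (by positivity) h7
    refine lt_of_lt_of_le ?_ (mul_le_mul h5 h6 (by positivity) (by positivity))
    have h8 : (H : ℝ) ^ M * 3 ^ (3 + t) * (243 ^ t * ((v : ℝ) ^ δ) ^ M * ((v : ℝ) ^ (2 * t)) ^ M) <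
        (T : ℝ) ^ (t * M) * (v : ℝ) ^ (3 * M) := by
      have e2 : σ ^ M * ((T : ℝ) ^ t * v ^ 3) ^ M =
          (H : ℝ) ^ M * ((v : ℝ) ^ (2 * t)) ^ M * ((v : ℝ) ^ δ) ^ M := by
        rw [← mul_pow, ← mul_pow, ← mul_pow]
        congr 1
        rw [hσ, hρ]
        field_simp
      have e3 : (T : ℝ) ^ (t * M) * (v : ℝ) ^ (3 * M) = ((T : ℝ) ^ t * v ^ 3) ^ M := by
        rw [mul_pow, pow_mul, pow_mul]
      rw [e3]
      calc _ = ((3 ^ (3 + t) * 243 ^ t : ℝ) * σ ^ M) * ((T : ℝ) ^ t * v ^ 3) ^ M := by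
            rw [mul_assoc ((3 : ℝ) ^ (3 + t) * 243 ^ t), e2]; ring
        _ < 1 * ((T : ℝ) ^ t * v ^ 3) ^ M := by
            apply mul_lt_mul_of_pos_right hM1 (by positivity)
        _ = _ := one_mul _
    rw [← lt_div_iff₀ (by positivity)] at h8
    refine h8.trans_eq ?_
    rw [div_pow, div_pow, div_pow, ← pow_mul, ← pow_mul, ← pow_mul, ← pow_mul]
    field_simp
    ring_nf

end Pool.Agent.R86.TriSup
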