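import Pool.Agent.R86.TriSup2

set_option autoImplicit false

namespace Pool.Agent.R86.TriSup

open Finset

theorem taylor_le (s : ℕ) (X Y : ℝ) (hX0 : 0 ≤ X) (hX1 : X ≤ 1) (hY0 : 0 ≤ Y) (hY1 : Y ≤ 1) :
    X ^ (s + 1) ≤ Y ^ (s + 1) + (s + 1) * Y ^ s * (X - Y) + ((s + 1) * s / 2) * (X - Y) ^ 2 := by
  induction s with
  | zero => simp
  | succ s ih =>
    have h1 : X ^ (s + 1 + 1) ≤
        X * (Y ^ (s + 1) + (s + 1) * Y ^ s * (X - Y) + ((s + 1) * s / 2) * (X - Y) ^ 2) := by
      rw [pow_succ']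
      exact mul_le_mul_of_nonneg_left ih hX0
    refine h1.trans ?_
    have hYs0 : 0 ≤ Y ^ s := by positivity
    have hYs1 : Y ^ s ≤ 1 := pow_le_one₀ hY0 hY1
    have e : X * (Y ^ (s + 1) + (s + 1) * Y ^ s * (X - Y) + ((s + 1) * s / 2) * (X - Y) ^ 2) =
        Y ^ (s + 1 + 1) + (s + 1 + 1) * Y ^ (s + 1) * (X - Y) + (s + 1) * Y ^ s * (X - Y) ^ 2 +
          ((s + 1) * s / 2) * (X * (X - Y) ^ 2) := by ring
    rw [e]
    have h2 : (s + 1) * Y ^ s * (X - Y) ^ 2 ≤ (s + 1) * (X - Y) ^ 2 := by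
      apply mul_le_mul_of_nonneg_right _ (sq_nonneg _)
      nlinarith
    have h3 : X * (X - Y) ^ 2 ≤ (X - Y) ^ 2 := by
      nlinarith [sq_nonneg (X - Y)]
    have h4 : ((s + 1) * s / 2 : ℝ) * (X * (X - Y) ^ 2) ≤ ((s + 1) * s / 2) * (X - Y) ^ 2 :=
      mul_le_mul_of_nonneg_left h3 (by positivity)
    push_cast
    nlinarith

theorem bern_ge (s : ℕ) (Y g : ℝ) (hY0 : 0 ≤ Y) (hg : 0 ≤ g) :
    Y ^ (s + 1) + (s + 1) * Y ^ s * g ≤ (Y + g) ^ (s + 1) := by
  induction s with
  | zero => simp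
  | succ s ih =>
    have h1 : (Y + g) * (Y ^ (s + 1) + (s + 1) * Y ^ s * g) ≤ (Y + g) ^ (s + 1 + 1) := by
      rw [pow_succ' (Y + g) (s + 1)]
      exact mul_le_mul_of_nonneg_left ih (by positivity)
    refine le_trans ?_ h1
    have h2 : 0 ≤ (s + 1 : ℝ) * Y ^ s * g ^ 2 := by positivity
    have e : (Y + g) * (Y ^ (s + 1) + (s + 1) * Y ^ s * g) =
        Y ^ (s + 1 + 1) + (s + 1 + 1) * Y ^ (s + 1) * g + (s + 1 : ℝ) * Y ^ s * g ^ 2 := by ring
    rw [e]
    push_cast
    linarith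

theorem triple_sum {V : Type} [Fintype V] (f : V → V → ℝ) :
    ∑ x, ∑ y, ∑ z, ∑ w, f x w * f y w * f z w =
      ∑ w, (∑ x, f x w) * (∑ y, f y w) * (∑ z, f z w) := by
  have h1 : ∀ w, (∑ x, f x w) * (∑ y, f y w) * (∑ z, f z w) =
      ∑ x, ∑ y, ∑ z, f x w * f y w * f z w := by
    intro w
    rw [Finset.sum_mul_sum, Finset.sum_mul]
    refine Finset.sum_congr rfl fun x _ => ?_
    rw [Finset.sum_mul]
    refine Finset.sum_congr rfl fun y _ => ?_
    rw [Finset.mul_sum]
  simp_rw [h1]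
  symm
  rw [Finset.sum_comm]
  refine Finset.sum_congr rfl fun x _ => ?_
  rw [Finset.sum_comm]
  refine Finset.sum_congr rfl fun y _ => ?_
  rw [Finset.sum_comm]

section base

set_option linter.unusedSectionVars false

variable {V : Type} [Fintype V] (D : V → V → Prop)

open Classical in
/-- indicator -/
noncomputable def ind (x y : V) : ℝ := if D x y then 1 else 0

theorem ind_nonneg (x y : V) : 0 ≤ ind D x y := by unfold ind; split_ifs <;> norm_num
theorem ind_le_one (x y : V) : ind D x y ≤ 1 := by unfold ind; split_ifs <;> norm_num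

variable (hs : ∀ x y, D x y → D y x) (d : ℕ)
  (hd : ∀ x, ∑ w, ind D x w = d)
  (hc : ∀ x y, x ≠ y → ∑ w, ind D x w * ind D y w ≤ 1)
  (ht : ∀ x y z, D x y → D y z → ¬ D x z)

include hs in
theorem ind_symm (x y : V) : ind D x y = ind D y x := by
  unfold ind
  by_cases h : D x y
  · rw [if_pos h, if_pos (hs _ _ h)]
  · rw [if_neg h, if_neg (fun h' => h (hs _ _ h'))]

/-- common non-neighbours -/
noncomputable def cc (x y z : V) : ℝ := ∑ w, (1 - ind D x w) * (1 - ind D y w) * (1 - ind D z w)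

theorem card_tri_eq : (Nat.card (Tri (fun x y => ¬ D x y)) : ℝ) ≥
    ∑ x, ∑ y, ∑ z, (1 - ind D x y) * (1 - ind D y z) * (1 - ind D x z) *
      (1 - ind D y x) * (1 - ind D z y) * (1 - ind D z x) := by
  classical
  have h1 : ∑ x, ∑ y, ∑ z, (1 - ind D x y) * (1 - ind D y z) * (1 - ind D x z) *
      (1 - ind D y x) * (1 - ind D z y) * (1 - ind D z x) =
      ((Finset.univ.filter fun p : V × V × V => ¬ D p.1 p.2.1 ∧ ¬ D p.2.1 p.2.2 ∧ ¬ D p.1 p.2.2 ∧
        ¬ D p.2.1 p.1 ∧ ¬ D p.2.2 p.2.1 ∧ ¬ D p.2.2 p.1).card : ℝ) := by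
    rw [Finset.card_filter]
    push_cast
    rw [Fintype.sum_prod_type]
    refine Finset.sum_congr rfl fun x _ => ?_
    rw [Fintype.sum_prod_type]
    refine Finset.sum_congr rfl fun y _ => Finset.sum_congr rfl fun z _ => ?_
    unfold ind
    by_cases h1 : D x y <;> by_cases h2 : D y z <;> by_cases h3 : D x z <;>
      by_cases h4 : D y x <;> by_cases h5 : D z y <;> by_cases h6 : D z x <;>
      simp [h1, h2, h3, h4, h5, h6]
  rw [h1, ge_iff_le, ← Fintype.card_coe, ← Nat.card_eq_fintype_card, Nat.cast_le]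
  refine Nat.card_le_card_of_injective
    (fun p => ⟨![p.1.1, p.1.2.1, p.1.2.2], ?_⟩) ?_
  · obtain ⟨-, h1, h2, h3, h4, h5, h6⟩ := Finset.mem_filter.1 p.2
    intro i j hij
    fin_cases i <;> fin_cases j <;> simp_all
  · intro p q h
    have h' := congrArg Subtype.val h
    have e0 := congrFun h' 0
    have e1 := congrFun h' 1
    have e2 := congrFun h' 2
    simp at e0 e1 e2
    exact Subtype.ext (Prod.ext e0 (Prod.ext e1 e2))

theorem card_bip_le (t : ℕ) : (Nat.card (Bip (fun x y => ¬ D x y) t) : ℝ) ≤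
    ∑ x, ∑ y, ∑ z, (cc D x y z) ^ t := by
  classical
  have h0 : ∀ x y z, cc D x y z =
      (Fintype.card {w : V // ¬ D x w ∧ ¬ D y w ∧ ¬ D z w} : ℝ) := by
    intro x y z
    rw [Fintype.card_subtype, Finset.card_filter]
    push_cast
    unfold cc ind
    refine Finset.sum_congr rfl fun w _ => ?_
    by_cases h1 : D x w <;> by_cases h2 : D y w <;> by_cases h3 : D z w <;> simp [h1, h2, h3]
  let F : Bip (fun x y => ¬ D x y) t → (Σ p : V × V × V, (Fin t →
      {w : V // ¬ D p.1 w ∧ ¬ D p.2.1 w ∧ ¬ D p.2.2 w})) := fun f =>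
    ⟨(f.1 (Sum.inl 0), f.1 (Sum.inl 1), f.1 (Sum.inl 2)),
      fun j => ⟨f.1 (Sum.inr j), f.2 0 j, f.2 1 j, f.2 2 j⟩⟩
  have hF : Function.Injective F := by
    intro f g h
    apply Subtype.ext
    have h1 := congrArg Sigma.fst h
    have h1a : f.1 (Sum.inl 0) = g.1 (Sum.inl 0) := congrArg Prod.fst h1
    have h1b : f.1 (Sum.inl 1) = g.1 (Sum.inl 1) := congrArg (fun p => p.2.1) h1
    have h1c : f.1 (Sum.inl 2) = g.1 (Sum.inl 2) := congrArg (fun p => p.2.2) h1
    let Q : (Σ p : V × V × V, (Fin t → {w : V // ¬ D p.1 w ∧ ¬ D p.2.1 w ∧ ¬ D p.2.2 w})) →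
      (Fin t → V) := fun q j => (q.2 j).1
    have h2 : Q (F f) = Q (F g) := by rw [h]
    funext a
    rcases a with i | j
    · fin_cases i
      · exact h1a
      · exact h1b
      · exact h1c
    · exact congrFun h2 j
  have h1 := Nat.card_le_card_of_injective F hF
  rw [Nat.card_eq_fintype_card (α := Σ p : V × V × V, (Fin t →
      {w : V // ¬ D p.1 w ∧ ¬ D p.2.1 w ∧ ¬ D p.2.2 w})), Fintype.card_sigma] at h1
  refine (Nat.cast_le.2 h1).trans ?_
  push_cast
  rw [Fintype.sum_prod_type]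
  refine Finset.sum_le_sum fun x _ => ?_
  rw [Fintype.sum_prod_type]
  refine Finset.sum_le_sum fun y _ => Finset.sum_le_sum fun z _ => ?_
  rw [h0, Fintype.card_fun]
  simp

include hs hd in
theorem hd' (w : V) : ∑ x, ind D x w = d := by
  rw [← hd w]
  exact Finset.sum_congr rfl fun x _ => ind_symm D hs x w

include hs hd in
theorem sum_cc : ∑ x, ∑ y, ∑ z, cc D x y z =
    (Fintype.card V : ℝ) * ((Fintype.card V : ℝ) - d) ^ 3 := by
  have h1 : ∀ w, ∑ x, (1 - ind D x w) = (Fintype.card V : ℝ) - d := by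
    intro w
    rw [Finset.sum_sub_distrib, hd' D hs d hd w]
    simp
  have h2 : ∑ x, ∑ y, ∑ z, cc D x y z =
      ∑ w, (∑ x, (1 - ind D x w)) * (∑ y, (1 - ind D y w)) * (∑ z, (1 - ind D z w)) := by
    exact triple_sum (fun x w => 1 - ind D x w)
  rw [h2]
  simp_rw [h1]
  rw [Finset.sum_const, Finset.card_univ, nsmul_eq_mul]
  ring

/-- common neighbours -/
noncomputable def cd (x y : V) : ℝ := ∑ w, ind D x w * ind D y w

include hd in
theorem cc_lower (x y z : V) :
    0 ≤ cc D x y z - ((Fintype.card V : ℝ) - 3 * d) ∧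
    cc D x y z - ((Fintype.card V : ℝ) - 3 * d) ≤ cd D x y + cd D x z + cd D y z := by
  have e : cc D x y z - ((Fintype.card V : ℝ) - 3 * d) =
      ∑ w, (ind D x w * ind D y w + ind D x w * ind D z w + ind D y w * ind D z w -
        ind D x w * ind D y w * ind D z w) := by
    have e1 : (Fintype.card V : ℝ) - 3 * d =
        ∑ w, (1 - ind D x w - ind D y w - ind D z w) := by
      rw [Finset.sum_sub_distrib, Finset.sum_sub_distrib, Finset.sum_sub_distrib, hd, hd, hd]
      simp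
      ring
    rw [e1]
    unfold cc
    rw [← Finset.sum_sub_distrib]
    exact Finset.sum_congr rfl fun w _ => by ring
  constructor
  · rw [e]
    refine Finset.sum_nonneg fun w _ => ?_
    have a1 := ind_nonneg D x w
    have a2 := ind_nonneg D y w
    have a3 := ind_nonneg D z w
    have b1 := ind_le_one D x w
    have b2 := ind_le_one D y w
    have b3 := ind_le_one D z w
    have : ind D x w * ind D y w * ind D z w ≤ ind D x w * ind D y w * 1 :=
      mul_le_mul_of_nonneg_left b3 (by positivity)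
    have := mul_nonneg a1 a3
    have := mul_nonneg a2 a3
    linarith
  · rw [e]
    unfold cd
    rw [← Finset.sum_add_distrib, ← Finset.sum_add_distrib]
    refine Finset.sum_le_sum fun w _ => ?_
    have a1 := ind_nonneg D x w
    have a2 := ind_nonneg D y w
    have a3 := ind_nonneg D z w
    have : 0 ≤ ind D x w * ind D y w * ind D z w := by positivity
    linarith

include hd hc in
theorem sum_cd : ∑ x, ∑ y, cd D x y ^ 2 ≤
    (Fintype.card V : ℝ) * ((d : ℝ) ^ 2 + Fintype.card V) := by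
  classical
  have h1 : ∀ x y, cd D x y ^ 2 ≤ (if x = y then (d : ℝ) ^ 2 else 0) + 1 := by
    intro x y
    have h0 : 0 ≤ cd D x y := by
      unfold cd
      exact Finset.sum_nonneg fun w _ => mul_nonneg (ind_nonneg D x w) (ind_nonneg D y w)
    split_ifs with h
    · subst h
      have h2 : cd D x x ≤ d := by
        unfold cd
        rw [← hd x]
        refine Finset.sum_le_sum fun w _ => ?_
        have := ind_nonneg D x w
        have := ind_le_one D x w
        nlinarith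
      nlinarith
    · have h2 : cd D x y ≤ 1 := hc x y h
      nlinarith
  calc ∑ x, ∑ y, cd D x y ^ 2 ≤ ∑ x : V, ∑ y : V, ((if x = y then (d : ℝ) ^ 2 else 0) + 1) :=
        Finset.sum_le_sum fun x _ => Finset.sum_le_sum fun y _ => h1 x y
    _ = _ := by
        simp only [Finset.sum_add_distrib, Finset.sum_ite_eq, Finset.mem_univ, if_true]
        simp
        ring

include hs hd hc in
theorem sum_sq : ∑ x, ∑ y, ∑ z, (cc D x y z - ((Fintype.card V : ℝ) - 3 * d)) ^ 2 ≤
    9 * (Fintype.card V : ℝ) ^ 2 * ((d : ℝ) ^ 2 + Fintype.card V) := by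
  have h1 : ∀ x y z, (cc D x y z - ((Fintype.card V : ℝ) - 3 * d)) ^ 2 ≤
      3 * (cd D x y ^ 2 + cd D x z ^ 2 + cd D y z ^ 2) := by
    intro x y z
    obtain ⟨h0, h2⟩ := cc_lower D d hd x y z
    nlinarith [sq_nonneg (cd D x y - cd D x z), sq_nonneg (cd D x y - cd D y z),
      sq_nonneg (cd D x z - cd D y z)]
  have h2 := sum_cd D d hd hc
  set S := ∑ x, ∑ y, cd D x y ^ 2 with hS
  have e1 : ∑ x : V, ∑ y : V, ∑ z : V, 3 * (cd D x y ^ 2 + cd D x z ^ 2 + cd D y z ^ 2) =
      9 * Fintype.card V * S := by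
    have a1 : ∑ x : V, ∑ y : V, ∑ _z : V, cd D x y ^ 2 = Fintype.card V * S := by
      simp only [Finset.sum_const, Finset.card_univ, nsmul_eq_mul, ← Finset.mul_sum, hS]
    have a2 : ∑ x : V, ∑ _y : V, ∑ z : V, cd D x z ^ 2 = Fintype.card V * S := by
      simp only [Finset.sum_const, Finset.card_univ, nsmul_eq_mul, ← Finset.mul_sum, hS]
    have a3 : ∑ _x : V, ∑ y : V, ∑ z : V, cd D y z ^ 2 = Fintype.card V * S := by
      simp only [Finset.sum_const, Finset.card_univ, nsmul_eq_mul, hS]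
    have : ∑ x : V, ∑ y : V, ∑ z : V, 3 * (cd D x y ^ 2 + cd D x z ^ 2 + cd D y z ^ 2) =
        3 * (∑ x : V, ∑ y : V, ∑ _z : V, cd D x y ^ 2 + ∑ x : V, ∑ _y : V, ∑ z : V, cd D x z ^ 2 +
          ∑ _x : V, ∑ y : V, ∑ z : V, cd D y z ^ 2) := by
      simp only [Finset.mul_sum, ← Finset.sum_add_distrib, mul_add]
    rw [this, a1, a2, a3]
    ring
  calc _ ≤ ∑ x : V, ∑ y : V, ∑ z : V, 3 * (cd D x y ^ 2 + cd D x z ^ 2 + cd D y z ^ 2) :=
        Finset.sum_le_sum fun x _ => Finset.sum_le_sum fun y _ => Finset.sum_le_sum fun z _ =>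
          h1 x y z
    _ = 9 * Fintype.card V * S := e1
    _ ≤ 9 * Fintype.card V * ((Fintype.card V : ℝ) * ((d : ℝ) ^ 2 + Fintype.card V)) := by
        gcongr
    _ = _ := by ring

include hs hd ht in
theorem tri_lower : (Nat.card (Tri (fun x y => ¬ D x y)) : ℝ) ≥
    (Fintype.card V : ℝ) ^ 3 - 3 * (Fintype.card V : ℝ) ^ 2 * d +
      3 * (Fintype.card V : ℝ) * d ^ 2 := by
  refine le_trans (le_of_eq ?_) (card_tri_eq D)
  set N : ℝ := (Fintype.card V : ℝ) with hN
  have e1 : ∀ x y z, (1 - ind D x y) * (1 - ind D y z) * (1 - ind D x z) *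
      (1 - ind D y x) * (1 - ind D z y) * (1 - ind D z x) =
      1 - ind D x y - ind D y z - ind D x z + ind D x y * ind D y z + ind D x y * ind D x z +
        ind D y z * ind D x z := by
    intro x y z
    have s1 := ind_symm D hs x y
    have s2 := ind_symm D hs y z
    have s3 := ind_symm D hs x z
    rw [← s1, ← s2, ← s3]
    unfold ind
    by_cases h1 : D x y <;> by_cases h2 : D y z <;> by_cases h3 : D x z <;>
      simp [h1, h2, h3]
    · exact ht x y z h1 h2 h3
  simp_rw [e1]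
  have hd'' := hd' D hs d hd
  have b1 : ∑ x : V, ∑ y : V, ∑ _z : V, (1 : ℝ) = N ^ 3 := by
    simp [hN]; ring
  have b2 : ∑ x : V, ∑ y : V, ∑ _z : V, ind D x y = N ^ 2 * d := by
    simp only [Finset.sum_const, Finset.card_univ, nsmul_eq_mul, ← Finset.mul_sum, hd]
    rw [hN]; ring
  have b3 : ∑ _x : V, ∑ y : V, ∑ z : V, ind D y z = N ^ 2 * d := by
    simp only [Finset.sum_const, Finset.card_univ, nsmul_eq_mul, hd]
    rw [hN]; ring
  have b4 : ∑ x : V, ∑ _y : V, ∑ z : V, ind D x z = N ^ 2 * d := by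
    simp only [Finset.sum_const, Finset.card_univ, nsmul_eq_mul, hd]
    rw [hN]; ring
  have b5 : ∑ x : V, ∑ y : V, ∑ z : V, ind D x y * ind D y z = N * d ^ 2 := by
    simp only [← Finset.mul_sum, hd, ← Finset.sum_mul]
    simp only [Finset.sum_const, Finset.card_univ, nsmul_eq_mul]
    rw [hN]; ring
  have b6 : ∑ x : V, ∑ y : V, ∑ z : V, ind D x y * ind D x z = N * d ^ 2 := by
    simp only [← Finset.mul_sum, hd, ← Finset.sum_mul]
    simp only [Finset.sum_const, Finset.card_univ, nsmul_eq_mul]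
    rw [hN]; ring
  have b7 : ∑ x : V, ∑ y : V, ∑ z : V, ind D y z * ind D x z = N * d ^ 2 := by
    have : ∀ y, ∑ x : V, ∑ z : V, ind D y z * ind D x z = d ^ 2 := by
      intro y
      rw [Finset.sum_comm]
      simp only [← Finset.mul_sum, hd'', ← Finset.sum_mul, hd]
      ring
    rw [Finset.sum_comm]
    simp only [this]
    simp [hN]
  have : ∑ x : V, ∑ y : V, ∑ z : V, (1 - ind D x y - ind D y z - ind D x z +
      ind D x y * ind D y z + ind D x y * ind D x z + ind D y z * ind D x z) =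
      ∑ x : V, ∑ y : V, ∑ _z : V, (1 : ℝ) - ∑ x : V, ∑ y : V, ∑ _z : V, ind D x y -
      ∑ _x : V, ∑ y : V, ∑ z : V, ind D y z - ∑ x : V, ∑ _y : V, ∑ z : V, ind D x z +
      ∑ x : V, ∑ y : V, ∑ z : V, ind D x y * ind D y z +
      ∑ x : V, ∑ y : V, ∑ z : V, ind D x y * ind D x z +
      ∑ x : V, ∑ y : V, ∑ z : V, ind D y z * ind D x z := by
    simp only [Finset.sum_add_distrib, Finset.sum_sub_distrib]
  rw [this, b1, b2, b3, b4, b5, b6, b7]
  ring

end base

end Pool.Agent.R86.TriSup
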