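import Pool.Agent.R86.TriSup3

set_option autoImplicit false

namespace Pool.Agent.R86.TriSup

open Finset

set_option linter.unusedSectionVars false

section final

variable {V : Type} [Fintype V] (D : V → V → Prop)
variable (hs : ∀ x y, D x y → D y x) (d : ℕ)
  (hd : ∀ x, ∑ w, ind D x w = d)
  (hc : ∀ x y, x ≠ y → ∑ w, ind D x w * ind D y w ≤ 1)
  (ht : ∀ x y z, D x y → D y z → ¬ D x z)

theorem cc_le (x y z : V) : cc D x y z ≤ Fintype.card V := by
  unfold cc
  calc ∑ w, (1 - ind D x w) * (1 - ind D y w) * (1 - ind D z w) ≤ ∑ _w : V, (1 : ℝ) := by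
        refine Finset.sum_le_sum fun w _ => ?_
        have a1 := ind_nonneg D x w
        have a2 := ind_nonneg D y w
        have a3 := ind_nonneg D z w
        have b1 := ind_le_one D x w
        have b2 := ind_le_one D y w
        have b3 := ind_le_one D z w
        have h1 : (1 - ind D x w) * (1 - ind D y w) ≤ 1 := by nlinarith
        have h2 : 0 ≤ (1 - ind D x w) * (1 - ind D y w) :=
          mul_nonneg (by linarith) (by linarith)
        nlinarith
    _ = _ := by simp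

include hs hd hc ht in
theorem base_ratio (s : ℕ) (hs1 : 1 ≤ s) (hN : Fintype.card V = 2 * d ^ 2) (hds : 27 * s < d) :
    (Fintype.card V) ^ 2 < Nat.card (Tri (fun x y => ¬ D x y)) ∧
    Nat.card (Bip (fun x y => ¬ D x y) (s + 1)) * (Fintype.card V) ^ (2 * (s + 1)) <
      Nat.card (Tri (fun x y => ¬ D x y)) ^ (s + 1) * (Fintype.card V) ^ 3 := by
  have hd1 : 28 ≤ d := by omega
  have hdR : (28 : ℝ) ≤ d := by exact_mod_cast hd1
  have hdsR : 27 * (s : ℝ) < d := by exact_mod_cast hds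
  have hs0 : (0 : ℝ) ≤ s := by positivity
  set N : ℝ := (Fintype.card V : ℝ) with hNdef
  have hNR : N = 2 * (d : ℝ) ^ 2 := by rw [hNdef, hN]; push_cast; ring
  have hN0 : 0 < N := by rw [hNR]; positivity
  have hT := tri_lower D hs d hd ht
  rw [ge_iff_le, ← hNdef] at hT
  set T := Nat.card (Tri (fun x y => ¬ D x y)) with hTdef
  have hH := card_bip_le D (s + 1)
  set H := Nat.card (Bip (fun x y => ¬ D x y) (s + 1)) with hHdef
  -- `Y`
  set Y : ℝ := (N - 3 * d) / N with hY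
  have hYe : Y = 1 - 3 / (2 * d) := by
    rw [hY, hNR]; field_simp
  have hY0 : 0 ≤ Y := by
    rw [hYe, sub_nonneg, div_le_one (by positivity)]; linarith
  have hY1 : Y ≤ 1 := by
    rw [hYe]
    have : (0 : ℝ) ≤ 3 / (2 * d) := by positivity
    linarith
  have hYN : N * Y = N - 3 * d := by rw [hY]; field_simp
  have hYs : 1 / 2 ≤ Y ^ s := by
    have h1 := one_add_mul_le_pow (a := Y - 1) (by linarith) s
    have h2 : 1 + (s : ℝ) * (Y - 1) ≤ Y ^ s := by
      have : 1 + (Y - 1) = Y := by ring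
      rw [this] at h1
      exact h1
    refine le_trans ?_ h2
    rw [hYe]
    have h3 : (s : ℝ) * (3 / (2 * d)) ≤ 1 / 2 := by
      rw [mul_div_assoc', div_le_iff₀ (by positivity)]
      linarith
    linarith
  have hYs0 : 0 ≤ Y ^ s := by positivity
  constructor
  · have h1 : N ^ 2 < (T : ℝ) := by
      refine lt_of_lt_of_le ?_ hT
      have : N ^ 3 - 3 * N ^ 2 * d + 3 * N * d ^ 2 - N ^ 2 =
          N ^ 2 * (N - 3 * d - 1) + 3 * N * d ^ 2 := by ring
      have h3 : 0 < N - 3 * d - 1 := by rw [hNR]; nlinarith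
      have h4 : 0 < N ^ 2 * (N - 3 * d - 1) := by positivity
      have h5 : 0 < 3 * N * (d : ℝ) ^ 2 := by positivity
      linarith
    have h2 : (((Fintype.card V) ^ 2 : ℕ) : ℝ) < (T : ℝ) := by push_cast; exact h1
    exact_mod_cast h2
  -- the sum of powers
  set U1 : ℝ := ∑ x, ∑ y, ∑ z, (cc D x y z / N - Y) with hS1
  set U2 : ℝ := ∑ x, ∑ y, ∑ z, (cc D x y z / N - Y) ^ 2 with hS2
  have hb1 : U1 = 3 * N * d ^ 2 - d ^ 3 := by
    have h1 := sum_cc D hs d hd
    have h2 : U1 = (∑ x, ∑ y, ∑ z, cc D x y z) / N - N ^ 3 * Y := by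
      rw [hS1]
      simp only [Finset.sum_sub_distrib, ← Finset.sum_div]
      congr 1
      simp only [Finset.sum_const, Finset.card_univ, nsmul_eq_mul, ← hNdef]
      ring
    rw [h2, h1, ← hNdef]
    have : N ^ 3 * Y = N ^ 2 * (N - 3 * d) := by rw [← hYN]; ring
    rw [this]
    field_simp
    ring
  have hb2 : U2 ≤ 27 * d ^ 2 := by
    have h1 := sum_sq D hs d hd hc
    rw [← hNdef] at h1
    have h2 : U2 = (∑ x, ∑ y, ∑ z, (cc D x y z - (N - 3 * d)) ^ 2) / N ^ 2 := by
      rw [hS2]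
      simp only [Finset.sum_div]
      refine Finset.sum_congr rfl fun x _ => Finset.sum_congr rfl fun y _ =>
        Finset.sum_congr rfl fun z _ => ?_
      rw [← hYN]
      field_simp
    rw [h2, div_le_iff₀ (by positivity)]
    refine h1.trans (le_of_eq ?_)
    rw [hNR]; ring
  have hsum : ∑ x, ∑ y, ∑ z, (cc D x y z) ^ (s + 1) ≤
      N ^ (s + 1) * (N ^ 3 * Y ^ (s + 1) + (s + 1) * Y ^ s * U1 + ((s + 1) * s / 2) * U2) := by
    have h1 : ∀ x y z, (cc D x y z) ^ (s + 1) ≤ N ^ (s + 1) * (Y ^ (s + 1) +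
        (s + 1) * Y ^ s * (cc D x y z / N - Y) +
        ((s + 1) * s / 2) * (cc D x y z / N - Y) ^ 2) := by
      intro x y z
      have h2 := (cc_lower D d hd x y z).1
      rw [← hNdef] at h2
      have h3 : 0 ≤ cc D x y z := by
        have : 0 ≤ N - 3 * d := by rw [hNR]; nlinarith
        linarith
      have h4 := cc_le D x y z
      rw [← hNdef] at h4
      have h5 := taylor_le s (cc D x y z / N) Y (by positivity)
        (by rw [div_le_one hN0]; exact h4) hY0 hY1
      have h6 : (cc D x y z) ^ (s + 1) = N ^ (s + 1) * (cc D x y z / N) ^ (s + 1) := by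
        rw [← mul_pow]
        congr 1
        field_simp
      rw [h6]
      exact mul_le_mul_of_nonneg_left h5 (by positivity)
    calc ∑ x, ∑ y, ∑ z, (cc D x y z) ^ (s + 1) ≤ ∑ x, ∑ y, ∑ z, N ^ (s + 1) * (Y ^ (s + 1) +
        (s + 1) * Y ^ s * (cc D x y z / N - Y) +
        ((s + 1) * s / 2) * (cc D x y z / N - Y) ^ 2) :=
          Finset.sum_le_sum fun x _ => Finset.sum_le_sum fun y _ => Finset.sum_le_sum fun z _ =>
            h1 x y z
      _ = _ := by
          simp only [← Finset.mul_sum, Finset.sum_add_distrib]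
          rw [← hS1, ← hS2]
          congr 3
          simp only [Finset.sum_const, Finset.card_univ, nsmul_eq_mul, ← hNdef]
          ring
  have hTlow : N ^ (3 * (s + 1)) * (Y ^ (s + 1) + (s + 1) * Y ^ s * (3 * d ^ 2 / N ^ 2)) ≤
      (T : ℝ) ^ (s + 1) := by
    have h1 := bern_ge s Y (3 * d ^ 2 / N ^ 2) hY0 (by positivity)
    have h2 : N ^ 3 * (Y + 3 * d ^ 2 / N ^ 2) ≤ T := by
      refine le_trans (le_of_eq ?_) hT
      have : N ^ 3 * (Y + 3 * d ^ 2 / N ^ 2) = N ^ 2 * (N * Y) + 3 * N * d ^ 2 := by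
        field_simp
      rw [this, hYN]; ring
    calc _ ≤ N ^ (3 * (s + 1)) * (Y + 3 * d ^ 2 / N ^ 2) ^ (s + 1) := by
          apply mul_le_mul_of_nonneg_left h1 (by positivity)
      _ = (N ^ 3 * (Y + 3 * d ^ 2 / N ^ 2)) ^ (s + 1) := by
          rw [mul_pow, pow_mul]
      _ ≤ _ := pow_le_pow_left₀ (by positivity) h2 _
  have hmain : (H : ℝ) * N ^ (2 * (s + 1)) < (T : ℝ) ^ (s + 1) * N ^ 3 := by
    have hA : (H : ℝ) * N ^ (2 * (s + 1)) ≤ N ^ (3 * (s + 1)) *
        (N ^ 3 * Y ^ (s + 1) + (s + 1) * Y ^ s * U1 + ((s + 1) * s / 2) * U2) := by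
      calc (H : ℝ) * N ^ (2 * (s + 1)) ≤ (N ^ (s + 1) * (N ^ 3 * Y ^ (s + 1) +
          (s + 1) * Y ^ s * U1 + ((s + 1) * s / 2) * U2)) * N ^ (2 * (s + 1)) :=
            mul_le_mul_of_nonneg_right (hH.trans hsum) (by positivity)
        _ = _ := by
            have : N ^ (3 * (s + 1)) = N ^ (s + 1) * N ^ (2 * (s + 1)) := by
              rw [← pow_add]; congr 1; ring
            rw [this]; ring
    have hB : N ^ (3 * (s + 1)) * (N ^ 3 * Y ^ (s + 1) + (s + 1) * Y ^ s * (3 * N * d ^ 2)) ≤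
        (T : ℝ) ^ (s + 1) * N ^ 3 := by
      refine le_trans (le_of_eq ?_) (mul_le_mul_of_nonneg_right hTlow (by positivity : 0 ≤ N ^ 3))
      field_simp
    refine lt_of_le_of_lt hA (lt_of_lt_of_le ?_ hB)
    apply mul_lt_mul_of_pos_left _ (by positivity)
    rw [hb1]
    have h7 : ((s + 1) * s / 2 : ℝ) * U2 ≤ ((s + 1) * s / 2) * (27 * d ^ 2) :=
      mul_le_mul_of_nonneg_left hb2 (by positivity)
    have h8 : ((s + 1) * s / 2 : ℝ) * (27 * d ^ 2) < (s + 1) * Y ^ s * d ^ 3 := by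
      have h9 : (s : ℝ) * 27 / 2 < Y ^ s * d := by nlinarith
      have h10 : (0 : ℝ) < (s + 1) * d ^ 2 := by positivity
      have := mul_lt_mul_of_pos_left h9 h10
      nlinarith
    have e : (s + 1) * Y ^ s * (3 * N * d ^ 2 - d ^ 3) =
      (s + 1) * Y ^ s * (3 * N * d ^ 2) - (s + 1) * Y ^ s * (d : ℝ) ^ 3 := by ring
    rw [e]
    linarith
  have hfin : ((H * (Fintype.card V) ^ (2 * (s + 1)) : ℕ) : ℝ) <
      ((T ^ (s + 1) * (Fintype.card V) ^ 3 : ℕ) : ℝ) := by
    push_cast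
    exact hmain
  exact_mod_cast hfin

end final

end Pool.Agent.R86.TriSup
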