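import Pool.Agent.R86.TriSup4

set_option autoImplicit false

namespace Pool.Agent.R86.TriSup

open Finset

/-- point-line incidence in the plane over `ZMod p` -/
def inc (p : ℕ) : (ZMod p × ZMod p) ⊕ (ZMod p × ZMod p) →
    (ZMod p × ZMod p) ⊕ (ZMod p × ZMod p) → Prop
  | Sum.inl a, Sum.inr b => a.2 = a.1 * b.1 + b.2
  | Sum.inr b, Sum.inl a => a.2 = a.1 * b.1 + b.2
  | _, _ => False

theorem inc_symm (p : ℕ) : ∀ x y, inc p x y → inc p y x := by
  rintro (x | x) (y | y) h <;> simp_all [inc]

theorem inc_tri (p : ℕ) : ∀ x y z, inc p x y → inc p y z → ¬ inc p x z := by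
  rintro (x | x) (y | y) (z | z) <;> simp [inc]

variable (p : ℕ) [hp : Fact p.Prime]

theorem inc_deg (x : (ZMod p × ZMod p) ⊕ (ZMod p × ZMod p)) : ∑ w, ind (inc p) x w = p := by
  classical
  have key : ∀ x : (ZMod p × ZMod p) ⊕ (ZMod p × ZMod p), ∑ w, ind (inc p) x w =
      ((univ.filter fun w => inc p x w).card : ℝ) := by
    intro x
    rw [Finset.card_filter]
    push_cast
    unfold ind
    refine Finset.sum_congr rfl fun w _ => ?_
    by_cases h : inc p x w <;> simp [h]
  rw [key]
  congr 1
  rcases x with ⟨a, b⟩ | ⟨c, e⟩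
  · have : (univ.filter fun w => inc p (Sum.inl (a, b)) w) =
        univ.image (fun c : ZMod p => (Sum.inr (c, b - a * c) : (ZMod p × ZMod p) ⊕ _)) := by
      ext w
      rw [mem_filter, mem_image]
      rcases w with w | ⟨c, e⟩
      · simp [inc]
      · constructor
        · rintro ⟨-, h⟩
          have h' : b = a * c + e := h
          exact ⟨c, mem_univ _, by rw [h']; congr 2; ring⟩
        · rintro ⟨c', -, h⟩
          simp only [Sum.inr.injEq, Prod.mk.injEq] at h
          refine ⟨mem_univ _, ?_⟩
          show b = a * c + e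
          rw [← h.1, ← h.2]; ring
    rw [this, Finset.card_image_of_injective]
    · simp [ZMod.card]
    · intro c c' h
      simpa using (congrArg (fun z => Sum.elim (fun _ => (0 : ZMod p)) Prod.fst z) h)
  · have : (univ.filter fun w => inc p (Sum.inr (c, e)) w) =
        univ.image (fun a : ZMod p => (Sum.inl (a, a * c + e) : _ ⊕ (ZMod p × ZMod p))) := by
      ext w
      rw [mem_filter, mem_image]
      rcases w with ⟨a, b⟩ | w
      · constructor
        · rintro ⟨-, h⟩
          have h' : b = a * c + e := h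
          exact ⟨a, mem_univ _, by rw [h']⟩
        · rintro ⟨a', -, h⟩
          simp only [Sum.inl.injEq, Prod.mk.injEq] at h
          refine ⟨mem_univ _, ?_⟩
          show b = a * c + e
          rw [← h.1, ← h.2]
      · simp [inc]
    rw [this, Finset.card_image_of_injective]
    · simp [ZMod.card]
    · intro c c' h
      simpa using (congrArg (fun z => Sum.elim Prod.fst (fun _ => (0 : ZMod p)) z) h)

theorem inc_codeg (x y : (ZMod p × ZMod p) ⊕ (ZMod p × ZMod p)) (hxy : x ≠ y) :
    ∑ w, ind (inc p) x w * ind (inc p) y w ≤ 1 := by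
  classical
  have key : ∑ w, ind (inc p) x w * ind (inc p) y w =
      ((univ.filter fun w => inc p x w ∧ inc p y w).card : ℝ) := by
    rw [Finset.card_filter]
    push_cast
    unfold ind
    refine Finset.sum_congr rfl fun w _ => ?_
    by_cases h : inc p x w <;> by_cases h' : inc p y w <;> simp [h, h']
  rw [key]
  have : (univ.filter fun w => inc p x w ∧ inc p y w).card ≤ 1 := by
    rw [Finset.card_le_one]
    intro w hw w' hw'
    simp only [mem_filter, mem_univ, true_and] at hw hw'
    obtain ⟨h1, h2⟩ := hw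
    obtain ⟨h3, h4⟩ := hw'
    rcases x with ⟨a, b⟩ | ⟨c, e⟩ <;> rcases y with ⟨a', b'⟩ | ⟨c', e'⟩ <;>
      rcases w with ⟨u, v⟩ | ⟨u, v⟩ <;> rcases w' with ⟨u', v'⟩ | ⟨u', v'⟩ <;>
      simp only [inc] at h1 h2 h3 h4
    · -- two points, two lines
      have ha : a ≠ a' := by
        rintro rfl
        apply hxy
        rw [h1, h2]
      have h5 : (a - a') * (u - u') = 0 := by linear_combination h2 - h1 + h3 - h4
      rcases mul_eq_zero.1 h5 with h | h
      · exact absurd (sub_eq_zero.1 h) ha
      · have hu := sub_eq_zero.1 h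
        subst hu
        have : v = v' := by linear_combination h3 - h1
        rw [this]
    · have hc : c ≠ c' := by
        rintro rfl
        apply hxy
        have : e = e' := by linear_combination h2 - h1
        rw [this]
      have h5 : (u - u') * (c - c') = 0 := by linear_combination h2 - h1 + h3 - h4
      rcases mul_eq_zero.1 h5 with h | h
      · have hu := sub_eq_zero.1 h
        subst hu
        rw [h1, h3]
      · exact absurd (sub_eq_zero.1 h) hc
  exact_mod_cast this

/-- **The base relation.** For every `t ≥ 3` there is a symmetric relation on a finite type whose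
`K_{3,t}`-density is smaller than the `t`-th power of its triangle density. -/
theorem exists_base (t : ℕ) (ht : 3 ≤ t) : ∃ (V : Type) (_ : Fintype V) (R : V → V → Prop),
    (∀ x y, R x y → R y x) ∧ (Fintype.card V) ^ 2 < Nat.card (Tri R) ∧
    Nat.card (Bip R t) * (Fintype.card V) ^ (2 * t) <
      Nat.card (Tri R) ^ t * (Fintype.card V) ^ 3 := by
  obtain ⟨s, rfl⟩ : ∃ s, t = s + 1 := ⟨t - 1, by omega⟩
  obtain ⟨p, hp1, hp2⟩ := Nat.exists_infinite_primes (27 * s + 1)
  have : Fact p.Prime := ⟨hp2⟩
  refine ⟨(ZMod p × ZMod p) ⊕ (ZMod p × ZMod p), inferInstance, fun x y => ¬ inc p x y,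
    fun x y h h' => h (inc_symm p _ _ h'), ?_⟩
  refine base_ratio (inc p) (inc_symm p) p (inc_deg p) (inc_codeg p) (inc_tri p) s (by omega) ?_
    (by omega)
  rw [Fintype.card_sum, Fintype.card_prod, ZMod.card]
  ring

end Pool.Agent.R86.TriSup
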